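import Mathlib

/-!
# The discriminant of a compositum (not necessarily of linearly disjoint fields)
-/

set_option autoImplicit false
set_option linter.all false

open NumberField Module FractionalIdeal nonZeroDivisors Algebra Submodule

namespace Pool.Agent.H24ML

section trace

variable {k F₁ F₂ L : Type*} [Field k] [Field F₁] [Field F₂] [Field L] [CharZero k]
  [Algebra k F₂] [Algebra F₁ L] [Algebra F₂ L] [Algebra k L] [Algebra k F₁]
  [IsScalarTower k F₂ L] [IsScalarTower k F₁ L]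
  [FiniteDimensional k F₂] [FiniteDimensional F₁ L]

/-- The orthogonality relations for the embeddings. -/
theorem emb_orth {Ω : Type*} [Field Ω] [Algebra k Ω] [IsAlgClosed Ω] {ι : Type*} [Fintype ι]
    [DecidableEq ι] (b : Basis ι k F₂) (σ τ : F₂ →ₐ[k] Ω) [DecidableEq (F₂ →ₐ[k] Ω)] :
    ∑ j, σ (b j) * τ (b.traceDual j) = if σ = τ then 1 else 0 := by
  classical
  haveI : CharZero F₂ := charZero_of_injective_algebraMap (algebraMap k F₂).injective
  let P : Matrix (F₂ →ₐ[k] Ω) ι Ω := fun σ j => σ (b j)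
  let Q : Matrix (F₂ →ₐ[k] Ω) ι Ω := fun σ j => σ (b.traceDual j)
  have h1 : P.transpose * Q = 1 := by
    ext i j
    rw [Matrix.mul_apply, Matrix.one_apply]
    have h2 := trace_eq_sum_embeddings (K := k) (L := F₂) Ω (x := b i * b.traceDual j)
    rw [b.trace_mul_traceDual] at h2
    simp only [map_mul] at h2
    rw [show (∑ x, P.transpose i x * Q x j) = ∑ σ : F₂ →ₐ[k] Ω, σ (b i) * σ (b.traceDual j) from rfl,
      ← h2]
    split_ifs <;> simp
  have hcard : Fintype.card ι = Fintype.card (F₂ →ₐ[k] Ω) := by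
    rw [AlgHom.card k F₂ Ω, Module.finrank_eq_card_basis b]
  have h3 : Q * P.transpose = 1 := (Matrix.mul_eq_one_comm_of_equiv (Fintype.equivOfCardEq hcard)).1 h1
  have h4 : P * Q.transpose = 1 := by
    have := congrArg Matrix.transpose h3
    rwa [Matrix.transpose_mul, Matrix.transpose_transpose, Matrix.transpose_one] at this
  have h5 := congrFun (congrFun h4 σ) τ
  rw [Matrix.mul_apply, Matrix.one_apply] at h5
  exact h5

/-- The dual basis of one field gives coordinates for the compositum. -/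
theorem sum_trace {Ω : Type*} [Field Ω] [Algebra L Ω] [IsAlgClosed Ω]
    (hgen : ∀ σ τ : L →+* Ω, (∀ x, σ (algebraMap F₁ L x) = τ (algebraMap F₁ L x)) →
      (∀ y, σ (algebraMap F₂ L y) = τ (algebraMap F₂ L y)) → σ = τ)
    {ι : Type*} [Fintype ι] [DecidableEq ι] (b : Basis ι k F₂) (x : L) :
    ∑ j, algebraMap F₁ L (Algebra.trace F₁ L (x * algebraMap F₂ L (b j))) *
      algebraMap F₂ L (b.traceDual j) = x := by
  classical
  haveI : CharZero F₁ := charZero_of_injective_algebraMap (algebraMap k F₁).injective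
  letI : Algebra F₁ Ω := ((algebraMap L Ω).comp (algebraMap F₁ L)).toAlgebra
  haveI : IsScalarTower F₁ L Ω := IsScalarTower.of_algebraMap_eq fun _ => rfl
  letI : Algebra k Ω := ((algebraMap L Ω).comp (algebraMap k L)).toAlgebra
  haveI : IsScalarTower k L Ω := IsScalarTower.of_algebraMap_eq fun _ => rfl
  letI : Algebra F₂ Ω := ((algebraMap L Ω).comp (algebraMap F₂ L)).toAlgebra
  haveI : IsScalarTower F₂ L Ω := IsScalarTower.of_algebraMap_eq fun _ => rfl
  haveI : IsScalarTower k F₂ Ω := IsScalarTower.of_algebraMap_eq fun y => by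
    rw [IsScalarTower.algebraMap_apply k L Ω, IsScalarTower.algebraMap_apply F₂ L Ω,
      IsScalarTower.algebraMap_apply k F₂ L]
  haveI : IsScalarTower k F₁ Ω := IsScalarTower.of_algebraMap_eq fun y => by
    rw [IsScalarTower.algebraMap_apply k L Ω, IsScalarTower.algebraMap_apply F₁ L Ω,
      IsScalarTower.algebraMap_apply k F₁ L]
  apply (algebraMap L Ω).injective
  rw [map_sum]
  -- the restriction of an embedding
  let r : (L →ₐ[F₁] Ω) → (F₂ →ₐ[k] Ω) := fun σ =>
    { (σ : L →+* Ω).comp (algebraMap F₂ L) with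
      commutes' := fun y => by
        show σ (algebraMap F₂ L (algebraMap k F₂ y)) = _
        rw [← IsScalarTower.algebraMap_apply k F₂ L, IsScalarTower.algebraMap_apply k F₁ L,
          σ.commutes, ← IsScalarTower.algebraMap_apply k F₁ Ω] }
  have hr : ∀ σ y, r σ y = σ (algebraMap F₂ L y) := fun _ _ => rfl
  let i₀ : F₂ →ₐ[k] Ω := IsScalarTower.toAlgHom k F₂ Ω
  let j₀ : L →ₐ[F₁] Ω := IsScalarTower.toAlgHom F₁ L Ω
  have hri : ∀ σ, r σ = i₀ ↔ σ = j₀ := by
    intro σ
    constructor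
    · intro h
      have h1 : (σ : L →+* Ω) = (j₀ : L →+* Ω) := by
        apply hgen
        · intro y
          show σ (algebraMap F₁ L y) = j₀ (algebraMap F₁ L y)
          rw [σ.commutes, j₀.commutes]
        · intro y
          show σ (algebraMap F₂ L y) = j₀ (algebraMap F₂ L y)
          rw [← hr, h]
          rfl
      ext y
      exact congrArg (fun f : L →+* Ω => f y) h1
    · rintro rfl
      ext y
      rfl
  have h1 : ∀ j, algebraMap L Ω (algebraMap F₁ L (Algebra.trace F₁ L (x * algebraMap F₂ L (b j))) *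
      algebraMap F₂ L (b.traceDual j)) =
      ∑ σ : L →ₐ[F₁] Ω, σ x * (r σ (b j) * i₀ (b.traceDual j)) := by
    intro j
    rw [map_mul, ← IsScalarTower.algebraMap_apply F₁ L Ω, trace_eq_sum_embeddings Ω,
      Finset.sum_mul]
    refine Finset.sum_congr rfl fun σ _ => ?_
    rw [map_mul, hr, mul_assoc]
    rfl
  rw [Finset.sum_congr rfl fun j _ => h1 j, Finset.sum_comm]
  have h2 : ∀ σ : L →ₐ[F₁] Ω, ∑ j, σ x * (r σ (b j) * i₀ (b.traceDual j)) =
      if σ = j₀ then σ x else 0 := by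
    intro σ
    rw [← Finset.mul_sum, emb_orth]
    by_cases h : σ = j₀
    · rw [if_pos ((hri σ).2 h), if_pos h, mul_one]
    · rw [if_neg fun h3 => h ((hri σ).1 h3), if_neg h, mul_zero]
  rw [Finset.sum_congr rfl fun σ _ => h2 σ, Finset.sum_ite_eq', if_pos (Finset.mem_univ _)]
  rfl

end trace

section disc

variable (F₁ F₂ L : Type*) [Field F₁] [Field F₂] [Field L] [NumberField F₁] [NumberField F₂]
  [NumberField L] [Algebra F₁ L] [Algebra F₂ L]

/-- The fields `F₁`, `F₂` generate `L`: an embedding is determined by its values on them. -/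
def Gen (F₁ F₂ L : Type*) [Field F₁] [Field F₂] [Field L] [Algebra F₁ L] [Algebra F₂ L] : Prop :=
  ∀ σ τ : L →+* AlgebraicClosure L, (∀ x, σ (algebraMap F₁ L x) = τ (algebraMap F₁ L x)) →
      (∀ y, σ (algebraMap F₂ L y) = τ (algebraMap F₂ L y)) → σ = τ

theorem traceDual_le (hgen : Gen F₁ F₂ L) :
    (traceDual (𝓞 F₁) F₁ (1 : Submodule (𝓞 L) L)).restrictScalars (𝓞 F₁) ≤
      span (𝓞 F₁) (algebraMap F₂ L '' (traceDual ℤ ℚ (1 : Submodule (𝓞 F₂) F₂))) := by
  classical
  intro x hx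
  let b := integralBasis F₂
  have hb : Submodule.span ℤ (Set.range b) = (1 : Submodule (𝓞 F₂) F₂).restrictScalars ℤ := by
    ext y
    rw [mem_span_integralBasis F₂]
    simp
  have h1 := sum_trace (k := ℚ) (F₁ := F₁) (F₂ := F₂) (L := L) (Ω := AlgebraicClosure L) hgen b x
  rw [← h1]
  refine Submodule.sum_mem _ fun j _ => ?_
  have h2 : Algebra.trace F₁ L (x * algebraMap F₂ L (b j)) ∈ (algebraMap (𝓞 F₁) F₁).range := by
    refine mem_traceDual.mp hx _ ?_
    rw [mem_one]
    refine ⟨algebraMap (𝓞 F₂) (𝓞 L) (RingOfIntegers.basis F₂ j), ?_⟩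
    rw [← IsScalarTower.algebraMap_apply (𝓞 F₂) (𝓞 L) L,
      IsScalarTower.algebraMap_apply (𝓞 F₂) F₂ L]
    congr 1
    exact (integralBasis_apply F₂ j).symm
  obtain ⟨c, hc⟩ := h2
  rw [← hc, ← IsScalarTower.algebraMap_apply (𝓞 F₁) F₁ L, ← Algebra.smul_def]
  refine Submodule.smul_mem _ _ (Submodule.subset_span ⟨b.traceDual j, ?_, rfl⟩)
  have h3 := traceDual_span_of_basis ℤ (1 : Submodule (𝓞 F₂) F₂) b hb.symm
  have h4 : b.traceDual j ∈ Submodule.span ℤ (Set.range b.traceDual) :=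
    Submodule.subset_span ⟨j, rfl⟩
  rw [← h3] at h4
  exact h4

theorem diff_dvd (hgen : Gen F₁ F₂ L) :
    differentIdeal (𝓞 F₁) (𝓞 L) ∣
      Ideal.map (algebraMap (𝓞 F₂) (𝓞 L)) (differentIdeal ℤ (𝓞 F₂)) := by
  rw [Ideal.dvd_iff_le, ← coeIdeal_le_coeIdeal L, coeIdeal_differentIdeal (𝓞 F₁) F₁ L (𝓞 L),
    ← extendedHom_coeIdeal_eq_map L (𝓞 L) (K := F₂), le_inv_comm _ (by simp), ← map_inv₀,
    coeIdeal_differentIdeal ℤ ℚ, inv_inv, ← coe_le_coe, coe_dual_one, coe_extendedHom_eq_span,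
    ← coeToSet_coeToSubmodule, coe_dual_one]
  · have := Submodule.span_mono (R := 𝓞 L) <| traceDual_le F₁ F₂ L hgen
    rwa [← span_coe_eq_restrictScalars, span_span_of_tower, span_span_of_tower, span_eq] at this
  · exact (_root_.map_ne_zero _).mpr <| coeIdeal_eq_zero.not.mpr differentIdeal_ne_bot

/-- **The discriminant of a compositum.** -/
theorem discr_le (hgen : Gen F₁ F₂ L) :
    (discr L).natAbs ≤ (discr F₁).natAbs ^ finrank F₁ L * (discr F₂).natAbs ^ finrank F₂ L := by
  have h1 := natAbs_discr_eq_absNorm_differentIdeal_mul_natAbs_discr_pow F₁ (𝓞 F₁) L (𝓞 L)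
  have h2 : Ideal.absNorm (differentIdeal (𝓞 F₁) (𝓞 L)) ∣ (discr F₂).natAbs ^ finrank F₂ L := by
    have h3 := Ideal.absNorm_dvd_absNorm_of_le (Ideal.le_of_dvd (diff_dvd F₁ F₂ L hgen))
    letI : Algebra (FractionRing (𝓞 F₂)) (FractionRing (𝓞 L)) := FractionRing.liftAlgebra _ _
    rwa [Ideal.absNorm_algebraMap, absNorm_differentIdeal F₂,
      ← IsFractionRing.finrank_eq (𝓞 F₂) F₂ (𝓞 L) L] at h3
  rw [h1, mul_comm]
  refine Nat.mul_le_mul_left _ (Nat.le_of_dvd ?_ h2)
  exact pow_pos (Int.natAbs_pos.2 (discr_ne_zero F₂)) _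

end disc

end Pool.Agent.H24ML
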