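import Mathlib

/-!
# The number of cycles of a permutation (fixed points included), and equivariant maps
-/

set_option autoImplicit false
set_option linter.all false

namespace Pool.Agent.H24ML

/-- The number of cycles, fixed points included. -/
noncomputable def cyc {α : Type*} (g : Equiv.Perm α) : ℕ :=
  Nat.card (Quotient (Equiv.Perm.SameCycle.setoid g))

variable {α β : Type*} [Finite α] [Finite β]

theorem rel_iff {g : Equiv.Perm α} {x y : α} :
    (Quotient.mk (Equiv.Perm.SameCycle.setoid g) x = Quotient.mk _ y) ↔ g.SameCycle x y :=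
  Quotient.eq (r := Equiv.Perm.SameCycle.setoid g)

theorem cyc_le_card (g : Equiv.Perm α) : cyc g ≤ Nat.card α :=
  Nat.card_le_card_of_surjective _ Quotient.mk_surjective

theorem cyc_pos [Nonempty α] (g : Equiv.Perm α) : 0 < cyc g := by
  haveI : Finite (Quotient (Equiv.Perm.SameCycle.setoid g)) := Quotient.finite _
  haveI : Nonempty (Quotient (Equiv.Perm.SameCycle.setoid g)) :=
    ⟨Quotient.mk _ (Classical.arbitrary α)⟩
  exact Nat.card_pos

/-- Equivalent permutations have the same number of cycles. -/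
theorem cyc_congr (e : α ≃ β) {g : Equiv.Perm α} {h : Equiv.Perm β} (he : ∀ a, e (g a) = h (e a)) :
    cyc g = cyc h := by
  have key : ∀ (x y : α), g.SameCycle x y ↔ h.SameCycle (e x) (e y) := by
    have hz : ∀ (i : ℤ) (x : α), e ((g ^ i) x) = (h ^ i) (e x) := by
      have hh : h = e.permCongr g := by
        ext b
        obtain ⟨a, rfl⟩ := e.surjective b
        rw [← he, Equiv.permCongr_apply, Equiv.symm_apply_apply]
      intro i x
      have h2 : h ^ i = e.permCongr (g ^ i) := by
        rw [hh]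
        exact (map_zpow e.permCongrHom g i).symm
      rw [h2, Equiv.permCongr_apply, Equiv.symm_apply_apply]
    intro x y
    constructor
    · rintro ⟨i, hi⟩
      exact ⟨i, by rw [← hz, hi]⟩
    · rintro ⟨i, hi⟩
      exact ⟨i, e.injective (by rw [hz, hi])⟩
  unfold cyc
  refine Nat.card_congr (Quotient.congr e ?_)
  intro a b
  exact key a b

theorem zpow_map {f : α → β} {g : Equiv.Perm α} {h : Equiv.Perm β}
    (hf : ∀ a, f (g a) = h (f a)) (i : ℤ) (a : α) : f ((g ^ i) a) = (h ^ i) (f a) := by
  have hn : ∀ (n : ℕ) (a : α), f ((g ^ n) a) = (h ^ n) (f a) := by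
    intro n
    induction n with
    | zero => intro a; simp
    | succ n ih =>
      intro a
      rw [pow_succ, pow_succ, Equiv.Perm.mul_apply, Equiv.Perm.mul_apply, ih, hf]
  cases i with
  | ofNat n => simpa using hn n a
  | negSucc n =>
    rw [zpow_negSucc, zpow_negSucc]
    have h1 := hn (n + 1) ((g ^ (n + 1))⁻¹ a)
    have e1 : (g ^ (n + 1)) ((g ^ (n + 1))⁻¹ a) = a := (g ^ (n + 1)).apply_symm_apply a
    rw [e1] at h1
    rw [h1]
    exact ((h ^ (n + 1)).symm_apply_apply _).symm

/-- An equivariant map with fibres of at most `r` elements. -/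
theorem cyc_le_mul {f : α → β} {g : Equiv.Perm α} {h : Equiv.Perm β}
    (hf : ∀ a, f (g a) = h (f a)) {r : ℕ} (hr : ∀ b, Nat.card {a // f a = b} ≤ r) :
    cyc g ≤ r * cyc h := by
  classical
  haveI : Finite (Quotient (Equiv.Perm.SameCycle.setoid h)) := Quotient.finite _
  haveI : Fintype (Quotient (Equiv.Perm.SameCycle.setoid h)) := Fintype.ofFinite _
  let F : (Σ O : Quotient (Equiv.Perm.SameCycle.setoid h), {a // f a = O.out}) →
      Quotient (Equiv.Perm.SameCycle.setoid g) := fun x => Quotient.mk _ x.2.1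
  have hF : Function.Surjective F := by
    intro q
    obtain ⟨a, rfl⟩ := Quotient.exists_rep q
    have h1 : h.SameCycle (f a)
        (Quotient.out (Quotient.mk (Equiv.Perm.SameCycle.setoid h) (f a))) := by
      rw [← rel_iff, Quotient.out_eq]
    obtain ⟨i, hi⟩ := h1
    refine ⟨⟨Quotient.mk _ (f a), ⟨(g ^ i) a, ?_⟩⟩, ?_⟩
    · rw [zpow_map hf, hi]
    · show Quotient.mk _ ((g ^ i) a) = Quotient.mk _ a
      rw [rel_iff]
      exact ⟨-i, by rw [zpow_neg]; exact (g ^ i).symm_apply_apply a⟩
  calc cyc g ≤ Nat.card (Σ O : Quotient (Equiv.Perm.SameCycle.setoid h), {a // f a = O.out}) :=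
        Nat.card_le_card_of_surjective F hF
    _ = ∑ O : Quotient (Equiv.Perm.SameCycle.setoid h), Nat.card {a // f a = O.out} :=
        Nat.card_sigma
    _ ≤ ∑ O : Quotient (Equiv.Perm.SameCycle.setoid h), r := Finset.sum_le_sum fun O _ => hr _
    _ = r * cyc h := by
        rw [Finset.sum_const, Finset.card_univ, ← Nat.card_eq_fintype_card, smul_eq_mul, mul_comm]
        rfl

/-- An invariant subset. -/
theorem cyc_add_le {f : β → α} (hinj : Function.Injective f) {g : Equiv.Perm α}
    {h : Equiv.Perm β} (hf : ∀ b, f (h b) = g (f b)) :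
    cyc g + Nat.card β ≤ Nat.card α + cyc h := by
  classical
  haveI : Finite (Quotient (Equiv.Perm.SameCycle.setoid h)) := Quotient.finite _
  let F : Quotient (Equiv.Perm.SameCycle.setoid h) ⊕ {a : α // a ∉ Set.range f} →
      Quotient (Equiv.Perm.SameCycle.setoid g) := Sum.elim
        (fun q => Quotient.mk _ (f q.out)) (fun a => Quotient.mk _ a.1)
  have hF : Function.Surjective F := by
    intro q
    obtain ⟨a, rfl⟩ := Quotient.exists_rep q
    by_cases ha : a ∈ Set.range f
    · obtain ⟨b, rfl⟩ := ha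
      refine ⟨Sum.inl (Quotient.mk _ b), ?_⟩
      show Quotient.mk _ (f (Quotient.out (Quotient.mk (Equiv.Perm.SameCycle.setoid h) b))) = _
      rw [rel_iff]
      have h1 : h.SameCycle (Quotient.out (Quotient.mk (Equiv.Perm.SameCycle.setoid h) b)) b := by
        rw [← rel_iff, Quotient.out_eq]
      obtain ⟨i, hi⟩ := h1
      exact ⟨i, by rw [← zpow_map hf, hi]⟩
    · exact ⟨Sum.inr ⟨a, ha⟩, rfl⟩
  have h1 := Nat.card_le_card_of_surjective F hF
  rw [Nat.card_sum] at h1
  have h2 : Nat.card {a : α // a ∉ Set.range f} + Nat.card β = Nat.card α := by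
    have h3 : Nat.card β = Nat.card (Set.range f) := (Nat.card_congr (Equiv.ofInjective f hinj))
    rw [h3]
    have h4 := Set.ncard_add_ncard_compl (Set.range f)
    rw [← h4, add_comm]
    rfl
  have h5 : cyc g ≤ cyc h + Nat.card {a : α // a ∉ Set.range f} := h1
  omega

/-- A subset which is moved away. -/
theorem cyc_escape {S : Set α} {g : Equiv.Perm α} (h : ∀ a ∈ S, g a ∉ S) :
    cyc g + S.ncard ≤ Nat.card α := by
  let F : {a : α // a ∉ S} → Quotient (Equiv.Perm.SameCycle.setoid g) := fun a => Quotient.mk _ a.1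
  have hF : Function.Surjective F := by
    intro q
    obtain ⟨a, rfl⟩ := Quotient.exists_rep q
    by_cases ha : a ∈ S
    · refine ⟨⟨g a, h a ha⟩, ?_⟩
      show Quotient.mk _ (g a) = Quotient.mk _ a
      rw [rel_iff]
      exact ⟨-1, by simp⟩
    · exact ⟨⟨a, ha⟩, rfl⟩
  have h1 := Nat.card_le_card_of_surjective F hF
  have h2 : Nat.card {a : α // a ∉ S} + S.ncard = Nat.card α := by
    have h4 := Set.ncard_add_ncard_compl S
    rw [← h4, add_comm]
    rfl
  have h5 : cyc g ≤ Nat.card {a : α // a ∉ S} := h1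
  omega

end Pool.Agent.H24ML
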