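import Mathlib
import Pool.Agent.H24ML.Cyc

/-!
# The action on the embeddings of a field
-/

set_option autoImplicit false
set_option linter.all false

open Module

namespace Pool.Agent.H24ML

/-- The action of the automorphisms on the embeddings. -/
def act (k Ω L : Type*) [Field k] [Field Ω] [Field L] [Algebra k Ω] [Algebra k L] :
    (Ω ≃ₐ[k] Ω) →* Equiv.Perm (L →ₐ[k] Ω) where
  toFun σ := ⟨fun φ => (σ : Ω →ₐ[k] Ω).comp φ, fun φ => (σ.symm : Ω →ₐ[k] Ω).comp φ,
    fun φ => by ext x; simp, fun φ => by ext x; simp⟩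
  map_one' := by ext φ x; rfl
  map_mul' σ τ := by ext φ x; rfl

section abs

variable {k F M Ω : Type*} [Field k] [Field F] [Field M] [Field Ω] [Algebra k F] [Algebra k M]
  [Algebra k Ω]

@[simp] theorem act_apply (σ : Ω ≃ₐ[k] Ω) (φ : F →ₐ[k] Ω) (x : F) :
    act k Ω F σ φ x = σ (φ x) := rfl

theorem card_emb [CharZero k] [FiniteDimensional k F] [IsAlgClosed Ω] :
    Nat.card (F →ₐ[k] Ω) = finrank k F := by
  rw [Nat.card_eq_fintype_card, AlgHom.card]

/-- The number of the extensions of an embedding. -/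
theorem card_ext [CharZero k] [Algebra F M] [IsScalarTower k F M] [FiniteDimensional k M]
    [IsAlgClosed Ω] (φ : F →ₐ[k] Ω) :
    Nat.card {ψ : M →ₐ[k] Ω // ψ.comp (IsScalarTower.toAlgHom k F M) = φ} = finrank F M := by
  haveI : CharZero F := charZero_of_injective_algebraMap (algebraMap k F).injective
  haveI : FiniteDimensional F M := FiniteDimensional.right k F M
  letI : Algebra F Ω := (φ : F →+* Ω).toAlgebra
  haveI : IsScalarTower k F Ω := IsScalarTower.of_algebraMap_eq fun x => (φ.commutes x).symm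
  rw [← AlgHom.card F M Ω, ← Nat.card_eq_fintype_card]
  refine Nat.card_congr ⟨fun ψ => { ψ.1 with commutes' := fun x => ?_ }, fun χ =>
    ⟨χ.restrictScalars k, ?_⟩, fun ψ => ?_, fun χ => ?_⟩
  · exact congrArg (fun f : F →ₐ[k] Ω => f x) ψ.2
  · ext x
    exact χ.commutes x
  · ext x
    rfl
  · ext x
    rfl

/-- The action is transitive. -/
theorem exists_aut [CharZero k] [IsAlgClosed Ω] [Algebra.IsAlgebraic k Ω] (φ ψ : M →ₐ[k] Ω) :
    ∃ σ : Ω ≃ₐ[k] Ω, act k Ω M σ φ = ψ := by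
  haveI : IsAlgClosure k Ω := ⟨inferInstance, inferInstance⟩
  haveI : Normal k Ω := IsAlgClosure.normal k Ω
  let e₁ : M ≃ₐ[k] φ.fieldRange := AlgEquiv.ofInjectiveField φ
  let e₂ : M ≃ₐ[k] ψ.fieldRange := AlgEquiv.ofInjectiveField ψ
  let χ : φ.fieldRange ≃ₐ[k] ψ.fieldRange := e₁.symm.trans e₂
  refine ⟨χ.liftNormal Ω, ?_⟩
  ext x
  rw [act_apply]
  have h1 : φ x = algebraMap φ.fieldRange Ω (e₁ x) := rfl
  rw [h1, χ.liftNormal_commutes]
  show algebraMap ψ.fieldRange Ω (e₂ (e₁.symm (e₁ x))) = ψ x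
  rw [AlgEquiv.symm_apply_apply]
  rfl

/-- The index of the elements which do not act trivially on the embeddings is at least `μ`. -/
def Ind (k Ω F : Type*) [Field k] [Field Ω] [Field F] [Algebra k Ω] [Algebra k F] (μ : ℕ) : Prop :=
  ∀ σ : Ω ≃ₐ[k] Ω, act k Ω F σ ≠ 1 → cyc (act k Ω F σ) + μ ≤ finrank k F

end abs

section down

variable {K Ω L : Type*} [Field K] [NumberField K] [Field Ω] [CharZero Ω] [Algebra K Ω]
  [IsAlgClosed Ω] [Algebra.IsAlgebraic ℚ Ω] [Field L] [CharZero L] [Algebra K L] [FiniteDimensional K L]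

/-- From `K` to the rational numbers. -/
theorem ind_down {μ : ℕ} (h : Ind K Ω L μ) (hμ : μ ≤ finrank K L) : Ind ℚ Ω L μ := by
  classical
  haveI : FiniteDimensional ℚ L := FiniteDimensional.trans ℚ K L
  intro σ hσ
  -- restriction to `K`
  let res : (L →ₐ[ℚ] Ω) → (K →ₐ[ℚ] Ω) := fun φ => φ.comp (IsScalarTower.toAlgHom ℚ K L)
  have hres : ∀ φ, res (act ℚ Ω L σ φ) = act ℚ Ω K σ (res φ) := fun φ => by ext x; rfl
  let τ₀ : K →ₐ[ℚ] Ω := IsScalarTower.toAlgHom ℚ K Ω
  -- the embeddings over a given embedding of `K`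
  have hblock : ∀ τ : K →ₐ[ℚ] Ω, ∃ ρ : Ω ≃ₐ[ℚ] Ω, act ℚ Ω K ρ τ₀ = τ := fun τ => exists_aut τ₀ τ
  have hι : ∀ (ρ : Ω ≃ₐ[ℚ] Ω), ∃ ι : (L →ₐ[K] Ω) → (L →ₐ[ℚ] Ω), Function.Injective ι ∧
      (∀ ψ x, ι ψ x = ρ (ψ x)) ∧ Set.range ι = {φ | res φ = act ℚ Ω K ρ τ₀} := by
    intro ρ
    refine ⟨fun ψ => act ℚ Ω L ρ (ψ.restrictScalars ℚ), ?_, fun ψ x => rfl, ?_⟩
    · intro ψ ψ' hh
      have h1 := (act ℚ Ω L ρ).injective hh
      ext x
      exact congrArg (fun f : L →ₐ[ℚ] Ω => f x) h1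
    · ext φ
      constructor
      · rintro ⟨ψ, rfl⟩
        ext x
        show ρ (ψ (algebraMap K L x)) = ρ (algebraMap K Ω x)
        rw [ψ.commutes]
      · intro hφ
        have hφ' : res φ = act ℚ Ω K ρ τ₀ := hφ
        refine ⟨{ act ℚ Ω L ρ.symm φ with commutes' := fun x => ?_ }, ?_⟩
        · show ρ.symm (φ (algebraMap K L x)) = algebraMap K Ω x
          have h2 : φ (algebraMap K L x) = ρ (algebraMap K Ω x) :=
            congrArg (fun f : K →ₐ[ℚ] Ω => f x) hφ'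
          rw [h2, AlgEquiv.symm_apply_apply]
        · ext x
          show ρ (ρ.symm (φ x)) = φ x
          rw [AlgEquiv.apply_symm_apply]
  have hcardK : Nat.card (L →ₐ[K] Ω) = finrank K L := card_emb
  have hcardQ : Nat.card (L →ₐ[ℚ] Ω) = finrank ℚ L := card_emb
  by_cases hfix : ∀ φ, act ℚ Ω K σ (res φ) = res φ
  · -- `σ` does not move the blocks
    have hex : ∃ φ, act ℚ Ω L σ φ ≠ φ := by
      by_contra hcon
      push Not at hcon
      exact hσ (Equiv.ext hcon)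
    obtain ⟨φ, hφ⟩ := hex
    obtain ⟨ρ, hρ⟩ := hblock (res φ)
    obtain ⟨ι, hinj, hι1, hι2⟩ := hι ρ
    -- the conjugate of `σ` is the identity on `K`
    have hcomm : ∀ x : K, ρ.symm (σ (ρ (algebraMap K Ω x))) = algebraMap K Ω x := by
      intro x
      have h1 := hfix φ
      rw [← hρ] at h1
      have h2 : σ (ρ (algebraMap K Ω x)) = ρ (algebraMap K Ω x) :=
        congrArg (fun f : K →ₐ[ℚ] Ω => f x) h1
      rw [h2, AlgEquiv.symm_apply_apply]
    let σ' : Ω ≃ₐ[K] Ω := { (ρ.trans σ).trans ρ.symm with commutes' := hcomm }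
    have hσ' : ∀ y, σ' y = ρ.symm (σ (ρ y)) := fun _ => rfl
    have heq : ∀ ψ, ι (act K Ω L σ' ψ) = act ℚ Ω L σ (ι ψ) := by
      intro ψ
      ext x
      rw [hι1, act_apply, act_apply, hι1, hσ', AlgEquiv.apply_symm_apply]
    have hne : act K Ω L σ' ≠ 1 := by
      intro h1
      have hφr : φ ∈ Set.range ι := by
        rw [hι2]
        exact hρ.symm
      obtain ⟨ψ, rfl⟩ := hφr
      apply hφ
      rw [← heq, h1]
      rfl
    have h2 := h σ' hne
    have h3 := cyc_add_le hinj heq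
    rw [hcardK, hcardQ] at h3
    omega
  · push Not at hfix
    obtain ⟨φ, hφ⟩ := hfix
    obtain ⟨ρ, hρ⟩ := hblock (res φ)
    obtain ⟨ι, hinj, hι1, hι2⟩ := hι ρ
    have h1 := cyc_escape (S := Set.range ι) (g := act ℚ Ω L σ) (by
      intro χ hχ hχ2
      rw [hι2, hρ] at hχ hχ2
      have h4 : res χ = res φ := hχ
      have h5 : res (act ℚ Ω L σ χ) = res φ := hχ2
      rw [hres, h4] at h5
      exact hφ h5)
    have h2 : (Set.range ι).ncard = finrank K L := by
      rw [← hcardK, ← Set.image_univ, Set.ncard_image_of_injective _ hinj, Set.ncard_univ]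
    rw [h2, hcardQ] at h1
    omega

end down

end Pool.Agent.H24ML
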