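import Mathlib
import Pool.Agent.H24ML.Disc
import Pool.Agent.H24ML.Emb

/-!
# Composita of several fields of the same degree
-/

set_option autoImplicit false
set_option linter.all false

open Module NumberField IntermediateField

namespace Pool.Agent.H24ML

variable {k Ω : Type*} [Field k] [NumberField k] [Field Ω] [CharZero Ω] [Algebra k Ω]

theorem nf_of_fd (F : IntermediateField k Ω) [FiniteDimensional k F] : NumberField F := by
  haveI : FiniteDimensional ℚ F := FiniteDimensional.trans ℚ k F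
  exact { }

theorem fd_of_nf (F : IntermediateField k Ω) (h : NumberField F) : FiniteDimensional k F := by
  haveI := h.to_finiteDimensional
  exact FiniteDimensional.right ℚ k F

theorem discr_abs {F₁ F₂ L : Type*} [Field F₁] [Field F₂] [Field L] [Algebra k F₁] [Algebra k F₂]
    [Algebra k L] [NumberField F₁] [NumberField F₂] [NumberField L] (i₁ : F₁ →ₐ[k] L)
    (i₂ : F₂ →ₐ[k] L) (hgen : ∀ σ τ : L →+* AlgebraicClosure L, (∀ x, σ (i₁ x) = τ (i₁ x)) →
      (∀ y, σ (i₂ y) = τ (i₂ y)) → σ = τ) :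
    ∃ (r s : ℕ), finrank k L = finrank k F₁ * r ∧ finrank k L = finrank k F₂ * s ∧
      (discr L).natAbs ≤ (discr F₁).natAbs ^ r * (discr F₂).natAbs ^ s := by
  letI a1 : Algebra F₁ L := i₁.toRingHom.toAlgebra
  letI a2 : Algebra F₂ L := i₂.toRingHom.toAlgebra
  haveI : IsScalarTower k F₁ L := IsScalarTower.of_algebraMap_eq fun q => (i₁.commutes q).symm
  haveI : IsScalarTower k F₂ L := IsScalarTower.of_algebraMap_eq fun q => (i₂.commutes q).symm
  exact ⟨finrank F₁ L, finrank F₂ L, (finrank_mul_finrank k F₁ L).symm,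
    (finrank_mul_finrank k F₂ L).symm, discr_le F₁ F₂ L hgen⟩

/-- Two fields generate their compositum. -/
theorem gen_sup (F M : IntermediateField k Ω) (σ τ : ↥(F ⊔ M) →+* AlgebraicClosure ↥(F ⊔ M))
    (h1 : ∀ x, σ (inclusion (le_sup_left : F ≤ F ⊔ M) x) = τ (inclusion le_sup_left x))
    (h2 : ∀ x, σ (inclusion (le_sup_right : M ≤ F ⊔ M) x) = τ (inclusion le_sup_right x)) :
    σ = τ := by
  let S : IntermediateField k Ω :=
    { carrier := {y | ∃ h : y ∈ F ⊔ M, σ ⟨y, h⟩ = τ ⟨y, h⟩}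
      mul_mem' := by
        rintro a b ⟨ha, ha'⟩ ⟨hb, hb'⟩
        refine ⟨mul_mem ha hb, ?_⟩
        have e : (⟨a * b, mul_mem ha hb⟩ : ↥(F ⊔ M)) = ⟨a, ha⟩ * ⟨b, hb⟩ := rfl
        rw [e, map_mul, map_mul, ha', hb']
      add_mem' := by
        rintro a b ⟨ha, ha'⟩ ⟨hb, hb'⟩
        refine ⟨add_mem ha hb, ?_⟩
        have e : (⟨a + b, add_mem ha hb⟩ : ↥(F ⊔ M)) = ⟨a, ha⟩ + ⟨b, hb⟩ := rfl
        rw [e, map_add, map_add, ha', hb']
      algebraMap_mem' := fun q => by
        have hm : algebraMap k Ω q ∈ F ⊔ M := IntermediateField.algebraMap_mem _ q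
        exact ⟨hm, h1 ⟨algebraMap k Ω q, IntermediateField.algebraMap_mem _ q⟩⟩
      inv_mem' := by
        rintro a ⟨ha, ha'⟩
        refine ⟨inv_mem ha, ?_⟩
        have e : (⟨a⁻¹, inv_mem ha⟩ : ↥(F ⊔ M)) = (⟨a, ha⟩)⁻¹ := rfl
        rw [e, map_inv₀, map_inv₀, ha'] }
  have hF : F ≤ S := fun y hy => ⟨le_sup_left (a := F) hy, h1 ⟨y, hy⟩⟩
  have hM : M ≤ S := fun y hy => ⟨le_sup_right (b := M) hy, h2 ⟨y, hy⟩⟩
  ext x
  obtain ⟨h, h'⟩ := (sup_le hF hM) x.2
  exact h'

/-- The discriminant of the compositum of two fields. -/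
theorem discr_sup (F M : IntermediateField k Ω) (hF : NumberField F) (hM : NumberField M) :
    ∃ (h : NumberField ↥(F ⊔ M)) (r s : ℕ), finrank k ↥(F ⊔ M) = finrank k F * r ∧
      finrank k ↥(F ⊔ M) = finrank k M * s ∧
      (@discr ↥(F ⊔ M) _ h).natAbs ≤ (@discr F _ hF).natAbs ^ r * (@discr M _ hM).natAbs ^ s := by
  haveI := fd_of_nf F hF
  haveI := fd_of_nf M hM
  haveI : FiniteDimensional k ↥(F ⊔ M) := IntermediateField.finiteDimensional_sup F M
  haveI h : NumberField ↥(F ⊔ M) := nf_of_fd (F ⊔ M)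
  exact ⟨h, discr_abs (inclusion (le_sup_left : F ≤ F ⊔ M)) (inclusion le_sup_right)
    fun σ τ h1 h2 => gen_sup F M σ τ h1 h2⟩

/-- The discriminant of a compositum of fields of the degree `n`. -/
theorem discr_finset [DecidableEq (IntermediateField k Ω)] {n : ℕ} (hn : 0 < n) {B : ℝ} (hB : 0 ≤ B)
    (T : Finset (IntermediateField k Ω))
    (hT : ∀ F ∈ T, finrank k F = n ∧ ∃ h : NumberField F, ((@discr F _ h).natAbs : ℝ) ≤ B) :
    ∃ h : NumberField ↥(T.sup id), ((@discr _ _ h).natAbs : ℝ) ^ n ≤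
      B ^ (T.card * finrank k ↥(T.sup id)) *
        ((discr k).natAbs : ℝ) ^ (n * finrank k ↥(T.sup id)) := by
  classical
  induction T using Finset.induction_on with
  | empty =>
    have e : (∅ : Finset (IntermediateField k Ω)).sup id = ⊥ := Finset.sup_empty
    rw [e]
    haveI : FiniteDimensional k (⊥ : IntermediateField k Ω) := inferInstance
    haveI h : NumberField (⊥ : IntermediateField k Ω) := nf_of_fd _
    refine ⟨h, ?_⟩
    have h1 : (discr (⊥ : IntermediateField k Ω)) = discr k :=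
      discr_eq_discr_of_ringEquiv _ (botEquiv k Ω).toRingEquiv
    rw [h1, IntermediateField.finrank_bot]
    simp
  | insert F T hFT ih =>
    obtain ⟨hM, hM2⟩ := ih fun F' hF' => hT F' (Finset.mem_insert_of_mem hF')
    obtain ⟨hF1, hF, hF2⟩ := hT F (Finset.mem_insert_self _ _)
    have e : (insert F T).sup id = F ⊔ T.sup id := Finset.sup_insert
    rw [e, Finset.card_insert_of_notMem hFT]
    obtain ⟨h, r, s, hr, hs, hd⟩ := discr_sup F (T.sup id) hF hM
    refine ⟨h, ?_⟩
    rw [hF1] at hr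
    have hd' : ((@discr _ _ h).natAbs : ℝ) ≤ ((discr F).natAbs : ℝ) ^ r *
        ((discr ↥(T.sup id)).natAbs : ℝ) ^ s := by exact_mod_cast hd
    calc ((@discr _ _ h).natAbs : ℝ) ^ n
        ≤ (((discr F).natAbs : ℝ) ^ r * ((discr ↥(T.sup id)).natAbs : ℝ) ^ s) ^ n :=
          pow_le_pow_left₀ (Nat.cast_nonneg _) hd' _
      _ = (((discr F).natAbs : ℝ)) ^ (n * r) * (((discr ↥(T.sup id)).natAbs : ℝ) ^ n) ^ s := by
          rw [mul_pow, ← pow_mul, ← pow_mul, ← pow_mul, mul_comm r n, mul_comm s n]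
      _ ≤ B ^ (n * r) * (B ^ (T.card * finrank k ↥(T.sup id)) *
          ((discr k).natAbs : ℝ) ^ (n * finrank k ↥(T.sup id))) ^ s := by
          gcongr
      _ = B ^ ((T.card + 1) * finrank k ↥(F ⊔ T.sup id)) *
          ((discr k).natAbs : ℝ) ^ (n * finrank k ↥(F ⊔ T.sup id)) := by
          rw [mul_pow, ← pow_mul, ← pow_mul, ← mul_assoc, ← pow_add]
          congr 2
          · rw [mul_assoc, ← hs, ← hr]
            ring
          · rw [mul_assoc, ← hs]

end Pool.Agent.H24ML
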