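import Mathlib
import Pool.Agent.H24ML.Comp

/-!
# The group of a compositum, the number of subfields, and transfer
-/

set_option autoImplicit false
set_option linter.all false

open Module NumberField IntermediateField

namespace Pool.Agent.H24ML

/-- The number of cycles on the embeddings of a larger field. -/
theorem cyc_rel {k F M Ω : Type*} [Field k] [CharZero k] [Field F] [Field M] [Field Ω] [Algebra k F]
    [Algebra k M] [Algebra k Ω] [FiniteDimensional k M] [IsAlgClosed Ω] (i : F →ₐ[k] M)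
    (σ : Ω ≃ₐ[k] Ω) :
    ∃ r : ℕ, finrank k M = finrank k F * r ∧ cyc (act k Ω M σ) ≤ r * cyc (act k Ω F σ) := by
  letI a1 : Algebra F M := i.toRingHom.toAlgebra
  haveI : IsScalarTower k F M := IsScalarTower.of_algebraMap_eq fun q => (i.commutes q).symm
  haveI : FiniteDimensional k F := FiniteDimensional.left k F M
  refine ⟨finrank F M, (finrank_mul_finrank k F M).symm, ?_⟩
  refine cyc_le_mul (f := fun ψ : M →ₐ[k] Ω => ψ.comp (IsScalarTower.toAlgHom k F M)) ?_ ?_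
  · intro ψ
    ext x
    rfl
  · intro φ
    exact (card_ext φ).le

section comp

variable {k Ω : Type*} [Field k] [CharZero k] [Field Ω] [Algebra k Ω] [IsAlgClosed Ω]

/-- An automorphism which acts trivially on the embeddings of the fields `F ∈ T` acts trivially on
the embeddings of their compositum. -/
theorem act_sup (T : Finset (IntermediateField k Ω)) (σ : Ω ≃ₐ[k] Ω)
    (h : ∀ F ∈ T, act k Ω F σ = 1) : act k Ω ↥(T.sup id) σ = 1 := by
  ext φ x
  show σ (φ x) = φ x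
  let S : IntermediateField k Ω :=
    { carrier := {y | ∃ h : y ∈ T.sup id, σ (φ ⟨y, h⟩) = φ ⟨y, h⟩}
      mul_mem' := by
        rintro a b ⟨ha, ha'⟩ ⟨hb, hb'⟩
        refine ⟨mul_mem ha hb, ?_⟩
        have e : (⟨a * b, mul_mem ha hb⟩ : ↥(T.sup id)) = ⟨a, ha⟩ * ⟨b, hb⟩ := rfl
        rw [e, map_mul, map_mul, ha', hb']
      add_mem' := by
        rintro a b ⟨ha, ha'⟩ ⟨hb, hb'⟩
        refine ⟨add_mem ha hb, ?_⟩
        have e : (⟨a + b, add_mem ha hb⟩ : ↥(T.sup id)) = ⟨a, ha⟩ + ⟨b, hb⟩ := rfl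
        rw [e, map_add, map_add, ha', hb']
      algebraMap_mem' := fun q => by
        have hm : algebraMap k Ω q ∈ T.sup id := IntermediateField.algebraMap_mem _ q
        refine ⟨hm, ?_⟩
        have e : φ ⟨algebraMap k Ω q, hm⟩ = algebraMap k Ω q := φ.commutes q
        rw [e, σ.commutes]
      inv_mem' := by
        rintro a ⟨ha, ha'⟩
        refine ⟨inv_mem ha, ?_⟩
        have e : (⟨a⁻¹, inv_mem ha⟩ : ↥(T.sup id)) = (⟨a, ha⟩)⁻¹ := rfl
        rw [e, map_inv₀, map_inv₀, ha'] }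
  have hle : ∀ F ∈ T, F ≤ T.sup id := fun F hF => Finset.le_sup (f := id) hF
  have hS : T.sup id ≤ S := by
    refine Finset.sup_le fun F hF y hy => ?_
    refine ⟨hle F hF hy, ?_⟩
    have h1 := h F hF
    have h2 : act k Ω F σ (φ.comp (inclusion (hle F hF))) = φ.comp (inclusion (hle F hF)) := by
      rw [h1]
      rfl
    exact congrArg (fun f : F →ₐ[k] Ω => f ⟨y, hy⟩) h2
  obtain ⟨h3, h4⟩ := hS x.2
  exact h4

/-- The index for a compositum of fields of the degree `n`. -/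
theorem ind_sup {n μ : ℕ} (T : Finset (IntermediateField k Ω))
    (hT : ∀ F ∈ T, finrank k F = n ∧ Ind k Ω F μ) (hfd : FiniteDimensional k ↥(T.sup id))
    (σ : Ω ≃ₐ[k] Ω) (hσ : act k Ω ↥(T.sup id) σ ≠ 1) :
    n * cyc (act k Ω ↥(T.sup id) σ) + finrank k ↥(T.sup id) * μ ≤
      n * finrank k ↥(T.sup id) := by
  have h1 : ∃ F ∈ T, act k Ω F σ ≠ 1 := by
    by_contra hcon
    push Not at hcon
    exact hσ (act_sup T σ hcon)
  obtain ⟨F, hF, hne⟩ := h1
  obtain ⟨hF1, hF2⟩ := hT F hF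
  have hle : F ≤ T.sup id := Finset.le_sup (f := id) hF
  obtain ⟨r, hr, hc⟩ := cyc_rel (k := k) (Ω := Ω) (inclusion hle) σ
  have h2 := hF2 σ hne
  rw [hF1] at hr h2
  calc n * cyc (act k Ω ↥(T.sup id) σ) + finrank k ↥(T.sup id) * μ
      ≤ n * (r * cyc (act k Ω F σ)) + finrank k ↥(T.sup id) * μ :=
        Nat.add_le_add_right (Nat.mul_le_mul_left _ hc) _
    _ = n * r * (cyc (act k Ω F σ) + μ) := by rw [hr]; ring
    _ ≤ n * r * n := Nat.mul_le_mul_left _ h2
    _ = n * finrank k ↥(T.sup id) := by rw [hr]; ring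

variable [Algebra.IsAlgebraic k Ω]

/-- The restriction of embeddings is surjective; so an automorphism which acts trivially on the
embeddings of a field acts trivially on those of a subfield. -/
theorem act_le {F M : IntermediateField k Ω} (h : F ≤ M) (σ : Ω ≃ₐ[k] Ω) (hσ : act k Ω M σ = 1) :
    act k Ω F σ = 1 := by
  ext φ x
  obtain ⟨τ, hτ⟩ := exists_aut (k := k) (Ω := Ω) F.val φ
  have h1 : act k Ω M σ (act k Ω M τ M.val) = act k Ω M τ M.val := by
    rw [hσ]
    rfl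
  have h2 : σ (τ (x : Ω)) = τ (x : Ω) := congrArg (fun f : M →ₐ[k] Ω => f ⟨x, h x.2⟩) h1
  show σ (φ x) = φ x
  rw [← hτ]
  exact h2

/-- The Galois group of a field embeds in `H`. -/
def EmbIn (k Ω F : Type*) [Field k] [Field Ω] [Field F] [Algebra k Ω] [Algebra k F] (H : Type*)
    [Group H] : Prop :=
  ∃ f : (Ω ≃ₐ[k] Ω) →* H, ∀ σ, f σ = 1 ↔ act k Ω F σ = 1

theorem emb_sup {H : Type*} [Group H] (T : Finset (IntermediateField k Ω))
    (hT : ∀ F ∈ T, EmbIn k Ω F H) : EmbIn k Ω ↥(T.sup id) (Fin T.card → H) := by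
  classical
  choose f hf using hT
  refine ⟨Pi.monoidHom fun i => f (T.equivFin.symm i).1 (T.equivFin.symm i).2, fun σ => ?_⟩
  constructor
  · intro h
    refine act_sup T σ fun F hF => ?_
    have h1 : ∀ j : T, f j.1 j.2 σ = 1 := by
      intro j
      obtain ⟨i, rfl⟩ := T.equivFin.symm.surjective j
      exact congrFun h i
    exact (hf F hF σ).1 (h1 ⟨F, hF⟩)
  · intro h
    funext i
    show f (T.equivFin.symm i).1 (T.equivFin.symm i).2 σ = 1
    rw [hf]
    exact act_le (Finset.le_sup (f := id) (T.equivFin.symm i).2) σ h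

/-- The number of the subfields. -/
theorem card_sub (M : IntermediateField k Ω) (hfd : FiniteDimensional k M) :
    {F : IntermediateField k Ω | F ≤ M}.Finite ∧
    {F : IntermediateField k Ω | F ≤ M}.ncard ≤ 2 ^ (finrank k M * finrank k M) := by
  classical
  haveI : IsAlgClosure k Ω := ⟨inferInstance, inferInstance⟩
  haveI : Normal k Ω := IsAlgClosure.normal k Ω
  haveI : IsGalois k Ω := ⟨⟩
  let R : IntermediateField k Ω → Set ((M →ₐ[k] Ω) × (M →ₐ[k] Ω)) := fun F =>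
    {p | ∀ x : M, (x : Ω) ∈ F → p.1 x = p.2 x}
  have hle : ∀ F ∈ {F : IntermediateField k Ω | F ≤ M}, ∀ F' : IntermediateField k Ω,
      R F = R F' → F ≤ F' := by
    intro F hF F' hR x hx
    by_contra hx'
    rw [← InfiniteGalois.fixedField_fixingSubgroup F', IntermediateField.mem_fixedField_iff] at hx'
    push Not at hx'
    obtain ⟨σ, hσ, hσx⟩ := hx'
    have h1 : (M.val, (σ : Ω →ₐ[k] Ω).comp M.val) ∈ R F' := by
      intro y hy
      have := (IntermediateField.mem_fixingSubgroup_iff F' σ).1 hσ (y : Ω) hy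
      exact this.symm
    rw [← hR] at h1
    exact hσx (h1 ⟨x, hF hx⟩ hx).symm
  have hinj : Set.InjOn R {F : IntermediateField k Ω | F ≤ M} := fun F hF F' hF' hR =>
    le_antisymm (hle F hF F' hR) (hle F' hF' F hR.symm)
  haveI : Finite (M →ₐ[k] Ω) := inferInstance
  haveI : Finite (Set ((M →ₐ[k] Ω) × (M →ₐ[k] Ω))) := inferInstance
  have hfin : {F : IntermediateField k Ω | F ≤ M}.Finite :=
    Set.Finite.of_finite_image (Set.toFinite _) hinj
  refine ⟨hfin, ?_⟩
  rw [← Set.ncard_image_of_injOn hinj]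
  refine (Set.ncard_le_card _).trans (le_of_eq ?_)
  rw [Nat.card_eq_fintype_card, Fintype.card_set, Fintype.card_prod, AlgHom.card]

end comp

/-- Transfer of the embeddings and of the actions. -/
theorem transfer {k Ω₁ Ω₂ M₁ M₂ : Type*} [Field k] [Field Ω₁] [Field Ω₂] [Field M₁] [Field M₂]
    [Algebra k Ω₁] [Algebra k Ω₂] [Algebra k M₁] [Algebra k M₂] (ψ : Ω₁ ≃ₐ[k] Ω₂)
    (f : M₁ ≃ₐ[k] M₂) :
    ∃ (E : (M₂ →ₐ[k] Ω₂) ≃ (M₁ →ₐ[k] Ω₁)) (c : (Ω₂ ≃ₐ[k] Ω₂) ≃ (Ω₁ ≃ₐ[k] Ω₁)),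
      ∀ σ χ, E (act k Ω₂ M₂ σ χ) = act k Ω₁ M₁ (c σ) (E χ) := by
  refine ⟨⟨fun χ => ((ψ.symm : Ω₂ →ₐ[k] Ω₁).comp χ).comp (f : M₁ →ₐ[k] M₂),
    fun χ => ((ψ : Ω₁ →ₐ[k] Ω₂).comp χ).comp (f.symm : M₂ →ₐ[k] M₁), fun χ => ?_, fun χ => ?_⟩,
    ⟨fun σ => (ψ.trans σ).trans ψ.symm, fun σ => (ψ.symm.trans σ).trans ψ, fun σ => ?_,
      fun σ => ?_⟩, fun σ χ => ?_⟩
  · ext x
    simp
  · ext x
    simp
  · ext x
    simp
  · ext x
    simp
  · ext x
    simp [act]

end Pool.Agent.H24ML
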