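import Mathlib
import Pool.Agent.H24ML.Sub

/-!
# The sets of fields which are counted
-/

set_option autoImplicit false
set_option linter.all false

open Module NumberField IntermediateField

namespace Pool.Agent.H24ML

/-- The least index of an element `≠ 1`. -/
noncomputable def minInd {n : ℕ} (G : Subgroup (Equiv.Perm (Fin n))) : ℕ :=
  sInf {j : ℕ | ∃ g ∈ G, g ≠ 1 ∧ j = n - cyc g}

/-- `a(G)`. -/
noncomputable def aG {n : ℕ} (G : Subgroup (Equiv.Perm (Fin n))) : ℝ := 1 / (minInd G : ℝ)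

/-- Transitivity. -/
def Trans {n : ℕ} (G : Subgroup (Equiv.Perm (Fin n))) : Prop := ∀ i j : Fin n, ∃ g ∈ G, g i = j

/-- The extensions of degree `n` with the group `G` and relative discriminant of norm at most `X`. -/
def FldsIn (K Ω : Type*) [Field K] [NumberField K] [Field Ω] [Algebra K Ω] (n : ℕ)
    (G : Subgroup (Equiv.Perm (Fin n))) (X : ℝ) : Set (IntermediateField K Ω) :=
  {L | finrank K L = n ∧
    (∃ e : (L →ₐ[K] Ω) ≃ Fin n, ∀ π : Equiv.Perm (Fin n),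
      π ∈ G ↔ ∃ σ : Ω ≃ₐ[K] Ω, ∀ φ : L →ₐ[K] Ω, e (σ.toAlgHom.comp φ) = π (e φ)) ∧
    ∃ h : NumberField L, ((|@discr L _ h| : ℤ) : ℝ) ≤ X * ((|discr K| : ℤ) : ℝ) ^ n}

theorem minInd_le {n : ℕ} (G : Subgroup (Equiv.Perm (Fin n))) : minInd G ≤ n := by
  by_cases h : {j : ℕ | ∃ g ∈ G, g ≠ 1 ∧ j = n - cyc g}.Nonempty
  · obtain ⟨g, hg, h1, h2⟩ := Nat.sInf_mem h
    have h3 : minInd G = n - cyc g := h2
    omega
  · rw [Set.not_nonempty_iff_eq_empty] at h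
    unfold minInd
    rw [h]
    simp

theorem le_of_ne {n : ℕ} {G : Subgroup (Equiv.Perm (Fin n))} {g : Equiv.Perm (Fin n)} (hg : g ∈ G)
    (h1 : g ≠ 1) : cyc g + minInd G ≤ n := by
  have h2 : minInd G ≤ n - cyc g := Nat.sInf_le ⟨g, hg, h1, rfl⟩
  have h3 := cyc_le_card g
  rw [Nat.card_fin] at h3
  omega

theorem cyc_lt {n : ℕ} {g : Equiv.Perm (Fin n)} (h1 : g ≠ 1) : cyc g + 1 ≤ n := by
  have h2 : ∃ x, g x ≠ x := by
    by_contra hcon
    push Not at hcon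
    exact h1 (Equiv.ext hcon)
  obtain ⟨x, hx⟩ := h2
  have h3 := cyc_escape (S := {x}) (g := g) (by
    intro a ha
    rw [Set.mem_singleton_iff] at ha
    subst ha
    exact hx)
  rw [Set.ncard_singleton, Nat.card_fin] at h3
  exact h3

theorem minInd_pos {n : ℕ} {G : Subgroup (Equiv.Perm (Fin n))} (hG : ∃ g ∈ G, g ≠ 1) :
    0 < minInd G := by
  have h : {j : ℕ | ∃ g ∈ G, g ≠ 1 ∧ j = n - cyc g}.Nonempty := by
    obtain ⟨g, hg, h1⟩ := hG
    exact ⟨_, g, hg, h1, rfl⟩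
  obtain ⟨g, hg, h1, h2⟩ := Nat.sInf_mem h
  have h3 : minInd G = n - cyc g := h2
  have h4 := cyc_lt h1
  omega

theorem exists_ne {n : ℕ} (hn : 2 ≤ n) {G : Subgroup (Equiv.Perm (Fin n))} (hG : Trans G) :
    ∃ g ∈ G, g ≠ 1 := by
  obtain ⟨g, hg, h1⟩ := hG ⟨0, by omega⟩ ⟨1, by omega⟩
  refine ⟨g, hg, ?_⟩
  rintro rfl
  rw [Equiv.Perm.one_apply, Fin.mk.injEq] at h1
  omega

theorem aG_pos {n : ℕ} (hn : 2 ≤ n) {G : Subgroup (Equiv.Perm (Fin n))} (hG : Trans G) :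
    0 < aG G := by
  have := minInd_pos (exists_ne hn hG)
  unfold aG
  positivity

/-- From the group to the index of the field. -/
theorem ind_of_mem {K Ω : Type*} [Field K] [NumberField K] [Field Ω] [Algebra K Ω]
    {n : ℕ} {G : Subgroup (Equiv.Perm (Fin n))} {X : ℝ} {L : IntermediateField K Ω}
    (hL : L ∈ FldsIn K Ω n G X) : Ind K Ω L (minInd G) := by
  obtain ⟨h1, ⟨e, he⟩, -⟩ := hL
  haveI : Finite (L →ₐ[K] Ω) := Finite.of_equiv _ e.symm
  intro σ hσ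
  have h2 : e.permCongr (act K Ω L σ) ∈ G := by
    rw [he]
    refine ⟨σ, fun φ => ?_⟩
    rw [Equiv.permCongr_apply, Equiv.symm_apply_apply]
    rfl
  have h3 : e.permCongr (act K Ω L σ) ≠ 1 := by
    intro h4
    apply hσ
    ext φ x
    have h5 : e (act K Ω L σ φ) = e φ := by
      have := congrArg (fun p : Equiv.Perm (Fin n) => p (e φ)) h4
      simpa [Equiv.permCongr_apply] using this
    rw [e.injective h5]
    rfl
  have h6 := le_of_ne h2 h3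
  rw [h1]
  rwa [← cyc_congr e (g := act K Ω L σ) (h := e.permCongr (act K Ω L σ)) (fun a => by
    rw [Equiv.permCongr_apply, Equiv.symm_apply_apply])] at h6

/-- The Galois group of a field with the group `G` embeds in `G`. -/
theorem emb_of_mem {K Ω : Type*} [Field K] [NumberField K] [Field Ω] [Algebra K Ω]
    {n : ℕ} {G : Subgroup (Equiv.Perm (Fin n))} {X : ℝ} {L : IntermediateField K Ω}
    (hL : L ∈ FldsIn K Ω n G X) : EmbIn K Ω L G := by
  obtain ⟨h1, ⟨e, he⟩, -⟩ := hL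
  refine ⟨(e.permCongrHom.toMonoidHom.comp (act K Ω L)).codRestrict G fun σ => ?_, fun σ => ?_⟩
  · show e.permCongr (act K Ω L σ) ∈ G
    rw [he]
    refine ⟨σ, fun φ => ?_⟩
    rw [Equiv.permCongr_apply, Equiv.symm_apply_apply]
    rfl
  · rw [Subtype.ext_iff]
    show e.permCongrHom (act K Ω L σ) = 1 ↔ _
    constructor
    · intro h
      exact e.permCongrHom.injective (h.trans (map_one _).symm)
    · intro h
      rw [h, map_one]

/-- Transfer to another algebraic closure. -/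
theorem map_mem {k Ω₁ Ω₂ : Type*} [Field k] [NumberField k] [Field Ω₁] [Field Ω₂] [Algebra k Ω₁]
    [Algebra k Ω₂] (ψ : Ω₁ ≃ₐ[k] Ω₂) {m : ℕ} {G : Subgroup (Equiv.Perm (Fin m))} {Z : ℝ}
    {M : IntermediateField k Ω₁} (hM : M ∈ FldsIn k Ω₁ m G Z) :
    M.map (ψ : Ω₁ →ₐ[k] Ω₂) ∈ FldsIn k Ω₂ m G Z := by
  obtain ⟨h1, ⟨e, he⟩, hNF, h2⟩ := hM
  let f : M ≃ₐ[k] M.map (ψ : Ω₁ →ₐ[k] Ω₂) := M.equivMap (ψ : Ω₁ →ₐ[k] Ω₂)
  obtain ⟨E, c, hE⟩ := transfer ψ f
  refine ⟨by rw [← h1]; exact f.toLinearEquiv.finrank_eq.symm, ⟨E.trans e, fun π => ?_⟩, ?_⟩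
  · rw [he]
    constructor
    · rintro ⟨σ, hσ⟩
      refine ⟨c.symm σ, fun χ => ?_⟩
      have h3 := hE (c.symm σ) χ
      rw [Equiv.apply_symm_apply] at h3
      show e (E (act k Ω₂ _ (c.symm σ) χ)) = π (e (E χ))
      rw [h3]
      exact hσ (E χ)
    · rintro ⟨σ, hσ⟩
      refine ⟨c σ, fun φ => ?_⟩
      have h3 := hE σ (E.symm φ)
      rw [Equiv.apply_symm_apply] at h3
      have h4 : e (E (act k Ω₂ _ σ (E.symm φ))) = π (e (E (E.symm φ))) := hσ (E.symm φ)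
      rw [h3, Equiv.apply_symm_apply] at h4
      exact h4
  · haveI hNF' : NumberField ↥(M.map (ψ : Ω₁ →ₐ[k] Ω₂)) :=
      NumberField.of_ringEquiv _ _ f.toRingEquiv
    refine ⟨hNF', ?_⟩
    rw [← discr_eq_discr_of_ringEquiv _ f.toRingEquiv]
    exact h2

/-- The group of a field. -/
theorem exists_group {k Ω : Type*} [Field k] [NumberField k] [Field Ω] [Algebra k Ω]
    [IsAlgClosed Ω] [Algebra.IsAlgebraic k Ω]
    (M : IntermediateField k Ω) (hfd : FiniteDimensional k M) (h : NumberField M) {m : ℕ}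
    (hm : finrank k M = m) :
    ∃ G : Subgroup (Equiv.Perm (Fin m)), Trans G ∧
      (∀ g ∈ G, g ≠ 1 → ∃ σ : Ω ≃ₐ[k] Ω, act k Ω M σ ≠ 1 ∧ cyc g = cyc (act k Ω M σ)) ∧
      (∀ (H : Type) [Group H], EmbIn k Ω M H → ∃ f : G →* H, Function.Injective f) ∧
      ∀ Z : ℝ, ((|discr M| : ℤ) : ℝ) ≤ Z * ((|discr k| : ℤ) : ℝ) ^ m → M ∈ FldsIn k Ω m G Z := by
  have hcard : Nat.card (M →ₐ[k] Ω) = m := by rw [card_emb, hm]
  haveI : Finite (M →ₐ[k] Ω) := inferInstance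
  obtain ⟨e⟩ : Nonempty ((M →ₐ[k] Ω) ≃ Fin m) := ⟨Finite.equivFinOfCardEq hcard⟩
  let ρ : (Ω ≃ₐ[k] Ω) →* Equiv.Perm (Fin m) := e.permCongrHom.toMonoidHom.comp (act k Ω M)
  have hρ : ∀ σ φ, ρ σ (e φ) = e (act k Ω M σ φ) := by
    intro σ φ
    show e.permCongr (act k Ω M σ) (e φ) = _
    rw [Equiv.permCongr_apply, Equiv.symm_apply_apply]
  refine ⟨ρ.range, ?_, ?_, ?_, ?_⟩
  · intro i j
    obtain ⟨σ, hσ⟩ := exists_aut (k := k) (Ω := Ω) (e.symm i) (e.symm j)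
    refine ⟨ρ σ, ⟨σ, rfl⟩, ?_⟩
    have h1 := hρ σ (e.symm i)
    rw [Equiv.apply_symm_apply, hσ, Equiv.apply_symm_apply] at h1
    exact h1
  · rintro g ⟨σ, rfl⟩ hg
    refine ⟨σ, fun h1 => hg ?_, ?_⟩
    · show e.permCongrHom (act k Ω M σ) = 1
      rw [h1, map_one]
    · exact (cyc_congr e (fun a => (hρ σ a).symm)).symm
  · rintro H _ ⟨f, hf⟩
    have hker : ρ.rangeRestrict.ker = f.ker := by
      ext σ
      rw [MonoidHom.mem_ker, MonoidHom.mem_ker, hf, Subtype.ext_iff]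
      show e.permCongrHom (act k Ω M σ) = 1 ↔ _
      constructor
      · intro h
        exact e.permCongrHom.injective (h.trans (map_one _).symm)
      · intro h
        rw [h, map_one]
    let f' := MonoidHom.liftOfSurjective ρ.rangeRestrict ρ.rangeRestrict_surjective ⟨f, hker.le⟩
    have hf' : ∀ σ, f' (ρ.rangeRestrict σ) = f σ := fun σ =>
      MonoidHom.liftOfRightInverse_comp_apply _ _ _ _ σ
    refine ⟨f', (injective_iff_map_eq_one f').2 fun x hx => ?_⟩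
    obtain ⟨σ, rfl⟩ := ρ.rangeRestrict_surjective x
    rw [hf'] at hx
    have h1 : σ ∈ ρ.rangeRestrict.ker := by
      rw [hker]
      exact hx
    exact h1
  · intro Z hZ
    refine ⟨hm, ⟨e, fun π => ?_⟩, h, hZ⟩
    constructor
    · rintro ⟨σ, rfl⟩
      exact ⟨σ, fun φ => (hρ σ φ).symm⟩
    · rintro ⟨σ, hσ⟩
      refine ⟨σ, ?_⟩
      ext i
      obtain ⟨φ, rfl⟩ := e.surjective i
      rw [hρ]
      exact congrArg Fin.val (hσ φ)

/-- Finiteness. -/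
theorem fin_rat {k Ω : Type*} [Field k] [NumberField k] [Field Ω] [CharZero Ω] [Algebra k Ω]
    (R : ℝ) :
    {F : IntermediateField k Ω | ∃ h : NumberField F, ((|@discr F _ h| : ℤ) : ℝ) ≤ R}.Finite := by
  refine Set.Finite.of_finite_image (f := fun L => L.restrictScalars ℚ) ?_
      (IntermediateField.restrictScalars_injective ℚ).injOn
  have h1 := (NumberField.finite_of_discr_bdd Ω ⌊R⌋₊).image (fun F => F.1)
  refine h1.subset ?_
  rintro _ ⟨F, ⟨h, hR⟩, rfl⟩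
  have hfd : FiniteDimensional ℚ (F.restrictScalars ℚ) := h.to_finiteDimensional
  refine ⟨⟨F.restrictScalars ℚ, hfd⟩, ?_, rfl⟩
  have h0 : 0 ≤ R := le_trans (by exact_mod_cast abs_nonneg (discr F)) hR
  have h2 : (|discr F| : ℤ) ≤ ⌊R⌋ := Int.le_floor.2 hR
  have h3 : ((⌊R⌋₊ : ℕ) : ℤ) = ⌊R⌋ := Int.natCast_floor_eq_floor h0
  show |discr F| ≤ ((⌊R⌋₊ : ℕ) : ℤ)
  rw [h3]
  exact h2

end Pool.Agent.H24ML
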