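import Mathlib
import Pool.Agent.H24ML.Cnt

/-!
# The counting argument
-/

set_option autoImplicit false
set_option linter.all false

open Module NumberField IntermediateField Finset
open scoped Classical

namespace Pool.Agent.H24ML

/-- The groups which can occur. -/
def Good (n k μ m : ℕ) (H : Type) [Group H] (G : Subgroup (Equiv.Perm (Fin m))) : Prop :=
  Trans G ∧ k ≤ 2 ^ (m * m) ∧ (∃ f : G →* (Fin k → H), Function.Injective f) ∧
    ∀ g ∈ G, g ≠ 1 → n * cyc g + m * μ ≤ n * m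

section

variable {k₀ Ω : Type*} [Field k₀] [NumberField k₀] [Field Ω] [CharZero Ω] [Algebra k₀ Ω]

theorem deg_le {n : ℕ} (T : Finset (IntermediateField k₀ Ω)) (hT : ∀ F ∈ T, finrank k₀ F = n) :
    finrank k₀ ↥(T.sup id) ≤ n ^ T.card := by
  induction T using Finset.induction_on with
  | empty =>
    have e : (∅ : Finset (IntermediateField k₀ Ω)).sup id = ⊥ := Finset.sup_empty
    rw [e]
    simp
  | insert F T hFT ih =>
    have h1 := ih fun F' hF' => hT F' (Finset.mem_insert_of_mem hF')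
    have h2 := hT F (Finset.mem_insert_self _ _)
    have e : (insert F T).sup id = F ⊔ T.sup id := Finset.sup_insert
    rw [e, Finset.card_insert_of_notMem hFT, pow_succ, mul_comm]
    refine (IntermediateField.finrank_sup_le F (T.sup id)).trans ?_
    rw [h2]
    exact Nat.mul_le_mul_left _ h1

variable [IsAlgClosed Ω] [Algebra.IsAlgebraic k₀ Ω]

theorem comp_mem {n k μ : ℕ} (hn : 0 < n) {B : ℝ} (hB : 1 ≤ B) {H : Type} [Group H]
    (T : Finset (IntermediateField k₀ Ω)) (hk : T.card = k)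
    (hT : ∀ F ∈ T, finrank k₀ F = n ∧ (∃ h : NumberField F, ((@discr F _ h).natAbs : ℝ) ≤ B) ∧
      Ind k₀ Ω F μ ∧ EmbIn k₀ Ω F H) :
    ∃ m ≤ n ^ k, ∃ G : Subgroup (Equiv.Perm (Fin m)), Good n k μ m H G ∧
      T.sup id ∈ FldsIn k₀ Ω m G (B ^ (((k * m : ℕ) : ℝ) / n)) := by
  obtain ⟨h, hd⟩ := discr_finset hn (by linarith : (0 : ℝ) ≤ B) T fun F hF =>
    ⟨(hT F hF).1, (hT F hF).2.1⟩
  have hfd := fd_of_nf _ h
  obtain ⟨G, hG1, hG2, hG4, hG3⟩ := exists_group (k := k₀) (Ω := Ω) (T.sup id) hfd h rfl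
  refine ⟨finrank k₀ ↥(T.sup id), ?_, G, ⟨hG1, ?_, ?_, ?_⟩, ?_⟩
  · rw [← hk]
    exact deg_le T fun F hF => (hT F hF).1
  · obtain ⟨h1, h2⟩ := card_sub (T.sup id) hfd
    refine le_trans ?_ h2
    rw [← hk, ← Set.ncard_coe_finset]
    exact Set.ncard_le_ncard (fun F hF => Finset.le_sup (f := id) hF) h1
  · apply hG4
    rw [← hk]
    exact emb_sup T fun F hF => (hT F hF).2.2.2
  · intro g hg hg1
    obtain ⟨σ, hσ, hc⟩ := hG2 g hg hg1
    rw [hc]
    exact ind_sup T (fun F hF => ⟨(hT F hF).1, (hT F hF).2.2.1⟩) hfd σ hσ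
  · apply hG3
    have h1 : ∀ (L : Type _) [Field L] [NumberField L], ((|discr L| : ℤ) : ℝ) =
        ((discr L).natAbs : ℝ) := by
      intro L _ _
      rw [← Int.cast_natCast, Int.natCast_natAbs]
    rw [h1]
    have h2 : ((|discr k₀| : ℤ) : ℝ) = ((discr k₀).natAbs : ℝ) := by
      rw [← Int.cast_natCast, Int.natCast_natAbs]
    rw [h2]
    have hn0 : (n : ℝ) ≠ 0 := by exact_mod_cast hn.ne'
    calc ((discr ↥(T.sup id)).natAbs : ℝ)
        = (((discr ↥(T.sup id)).natAbs : ℝ) ^ n) ^ ((n : ℝ)⁻¹) :=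
          (Real.pow_rpow_inv_natCast (Nat.cast_nonneg _) hn.ne').symm
      _ ≤ (B ^ (T.card * finrank k₀ ↥(T.sup id)) *
          ((discr k₀).natAbs : ℝ) ^ (n * finrank k₀ ↥(T.sup id))) ^ ((n : ℝ)⁻¹) :=
          Real.rpow_le_rpow (by positivity) hd (by positivity)
      _ = B ^ (((k * finrank k₀ ↥(T.sup id) : ℕ) : ℝ) / n) *
          ((discr k₀).natAbs : ℝ) ^ (finrank k₀ ↥(T.sup id)) := by
          have hB0 : 0 ≤ B := by linarith
          rw [Real.mul_rpow (by positivity) (by positivity)]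
          congr 1
          · rw [← Real.rpow_natCast, ← Real.rpow_mul (by linarith), hk, div_eq_mul_inv]
          · rw [mul_comm n, pow_mul, Real.pow_rpow_inv_natCast (by positivity) hn.ne']

/-- The number of composita. -/
theorem count {n k μ : ℕ} (hn : 0 < n) {B : ℝ} (hB : 1 ≤ B) {H : Type} [Group H]
    (S : Finset (IntermediateField k₀ Ω))
    (hS : ∀ F ∈ S, finrank k₀ F = n ∧ (∃ h : NumberField F, ((@discr F _ h).natAbs : ℝ) ≤ B) ∧
      Ind k₀ Ω F μ ∧ EmbIn k₀ Ω F H) :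
    S.card.choose k ≤ 2 ^ (2 ^ (n ^ k * n ^ k)) * ∑ m ∈ range (n ^ k + 1),
      ∑ G ∈ (univ : Finset (Subgroup (Equiv.Perm (Fin m)))).filter (Good n k μ m H),
        (FldsIn k₀ Ω m G (B ^ (((k * m : ℕ) : ℝ) / n))).ncard := by
  have hfin : ∀ m (G : Subgroup (Equiv.Perm (Fin m))),
      (FldsIn k₀ Ω m G (B ^ (((k * m : ℕ) : ℝ) / n))).Finite := by
    intro m G
    refine (fin_rat (k := k₀) (Ω := Ω) (B ^ (((k * m : ℕ) : ℝ) / n) *
      ((|discr k₀| : ℤ) : ℝ) ^ m)).subset ?_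
    rintro F ⟨-, -, h, hd⟩
    exact ⟨h, hd⟩
  rw [← Finset.card_powersetCard]
  have hmem : ∀ T ∈ powersetCard k S, ∃ m ≤ n ^ k, ∃ G : Subgroup (Equiv.Perm (Fin m)),
      Good n k μ m H G ∧ T.sup id ∈ FldsIn k₀ Ω m G (B ^ (((k * m : ℕ) : ℝ) / n)) := by
    intro T hT
    rw [mem_powersetCard] at hT
    exact comp_mem hn hB T hT.2 fun F hF => hS F (hT.1 hF)
  refine (Finset.card_le_mul_card_image (f := fun T : Finset (IntermediateField k₀ Ω) => T.sup id)
    (powersetCard k S) (2 ^ (2 ^ (n ^ k * n ^ k))) ?_).trans (Nat.mul_le_mul_left _ ?_)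
  · intro M hM
    obtain ⟨T, hT, rfl⟩ := mem_image.1 hM
    obtain ⟨m, hm, G, -, h1, -, h, -⟩ := hmem T hT
    have hfd := fd_of_nf _ h
    obtain ⟨h2, h3⟩ := card_sub (T.sup id) hfd
    have h4 : ((powersetCard k S).filter fun T' => T'.sup id = T.sup id) ⊆ h2.toFinset.powerset := by
      intro T' hT'
      rw [mem_powerset]
      intro F hF
      rw [Set.Finite.mem_toFinset]
      show F ≤ T.sup id
      rw [← (mem_filter.1 hT').2]
      exact Finset.le_sup (f := id) hF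
    refine (card_le_card h4).trans ?_
    rw [card_powerset]
    refine Nat.pow_le_pow_right (by norm_num) ?_
    rw [← Set.ncard_eq_toFinset_card _ h2]
    refine h3.trans (Nat.pow_le_pow_right (by norm_num) ?_)
    rw [h1]
    exact Nat.mul_le_mul hm hm
  · have hsub : (powersetCard k S).image (fun T => T.sup id) ⊆
        (range (n ^ k + 1)).biUnion fun m =>
          ((univ : Finset (Subgroup (Equiv.Perm (Fin m)))).filter (Good n k μ m H)).biUnion
            fun G => (hfin m G).toFinset := by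
      intro M hM
      obtain ⟨T, hT, rfl⟩ := mem_image.1 hM
      obtain ⟨m, hm, G, hG, h1⟩ := hmem T hT
      rw [mem_biUnion]
      refine ⟨m, mem_range.2 (by omega), ?_⟩
      rw [mem_biUnion]
      exact ⟨G, mem_filter.2 ⟨mem_univ _, hG⟩, (hfin m G).mem_toFinset.2 h1⟩
    refine (card_le_card hsub).trans (card_biUnion_le.trans ?_)
    refine sum_le_sum fun m _ => card_biUnion_le.trans (sum_le_sum fun G _ => ?_)
    rw [← Set.ncard_eq_toFinset_card _ (hfin m G)]

end

end Pool.Agent.H24ML
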