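import Mathlib
import Pool.Agent.H24ML.Main

/-!
# The upper bound in Malle's conjecture: amplification
-/

set_option autoImplicit false
set_option linter.all false

open Module NumberField IntermediateField Finset
open scoped Classical

namespace Pool.Agent.H24ML

section

variable {K Ω : Type*} [Field K] [NumberField K] [Field Ω] [CharZero Ω] [Algebra K Ω]
  [IsAlgClosed Ω]

theorem one_le_discr (n : ℕ) : (1 : ℝ) ≤ ((|discr K| : ℤ) : ℝ) ^ n :=
  one_le_pow₀ (by exact_mod_cast Int.one_le_abs (discr_ne_zero K))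

/-- Composita over `K`. -/
theorem choose_le_self [Algebra.IsAlgebraic K Ω] {n k : ℕ} {G : Subgroup (Equiv.Perm (Fin n))}
    (hn : 0 < n) {X : ℝ} (hX : 1 ≤ X) :
    (FldsIn K Ω n G X).ncard.choose k ≤ 2 ^ (2 ^ (n ^ k * n ^ k)) *
      ∑ m ∈ range (n ^ k + 1),
      ∑ G' ∈ (univ : Finset (Subgroup (Equiv.Perm (Fin m)))).filter (Good n k (minInd G) m G),
        (FldsIn K Ω m G' ((X * ((|discr K| : ℤ) : ℝ) ^ n) ^ (((k * m : ℕ) : ℝ) / n))).ncard := by
  have hfin : (FldsIn K Ω n G X).Finite :=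
    (fin_rat (k := K) (Ω := Ω) (X * ((|discr K| : ℤ) : ℝ) ^ n)).subset fun L hL => hL.2.2
  have hB : 1 ≤ X * ((|discr K| : ℤ) : ℝ) ^ n :=
    one_le_mul_of_one_le_of_one_le hX (one_le_discr n)
  have h1 := count (k₀ := K) (Ω := Ω) (n := n) (k := k) (μ := minInd G) (H := G) hn hB
    hfin.toFinset (by
      intro L hL
      rw [hfin.mem_toFinset] at hL
      refine ⟨hL.1, ?_, ind_of_mem hL, emb_of_mem hL⟩
      obtain ⟨h, hd⟩ := hL.2.2
      refine ⟨h, le_trans (le_of_eq ?_) hd⟩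
      rw [← Int.cast_natCast, Int.natCast_natAbs])
  rw [← Set.ncard_eq_toFinset_card _ hfin] at h1
  exact h1

variable [Algebra.IsAlgebraic ℚ Ω]

theorem ind_res {n : ℕ} {G : Subgroup (Equiv.Perm (Fin n))} {X : ℝ} {L : IntermediateField K Ω}
    (hn : 0 < n) (hL : L ∈ FldsIn K Ω n G X) :
    finrank ℚ (L.restrictScalars ℚ) = finrank ℚ K * n ∧
    (∃ h : NumberField (L.restrictScalars ℚ), ((@discr (L.restrictScalars ℚ) _ h).natAbs : ℝ) ≤
      X * ((|discr K| : ℤ) : ℝ) ^ n) ∧ Ind ℚ Ω (L.restrictScalars ℚ) (minInd G) ∧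
      EmbIn ℚ Ω (L.restrictScalars ℚ) (Equiv.Perm (Fin (finrank ℚ K * n))) := by
  have h1 := ind_of_mem hL
  obtain ⟨hdeg, -, h, hd⟩ := hL
  haveI : FiniteDimensional K L := FiniteDimensional.of_finrank_pos (by omega)
  have hdeg2 : finrank ℚ (L.restrictScalars ℚ) = finrank ℚ K * n := by
    have h2 := finrank_mul_finrank ℚ K L
    rw [hdeg] at h2
    rw [h2]
    congr 1
  refine ⟨hdeg2, ⟨h, ?_⟩, ?_, ?_⟩
  · refine le_trans (le_of_eq ?_) hd
    rw [← Int.cast_natCast, Int.natCast_natAbs]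
    rfl
  · exact ind_down (K := K) (Ω := Ω) (L := L) h1 (by rw [hdeg]; exact minInd_le G)
  · haveI : FiniteDimensional ℚ (L.restrictScalars ℚ) := h.to_finiteDimensional
    have hc : Nat.card ((L.restrictScalars ℚ) →ₐ[ℚ] Ω) = finrank ℚ K * n := by
      rw [card_emb, hdeg2]
    haveI : Finite ((L.restrictScalars ℚ) →ₐ[ℚ] Ω) := inferInstance
    obtain ⟨e⟩ : Nonempty (((L.restrictScalars ℚ) →ₐ[ℚ] Ω) ≃ Fin (finrank ℚ K * n)) :=
      ⟨Finite.equivFinOfCardEq hc⟩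
    refine ⟨e.permCongrHom.toMonoidHom.comp (act ℚ Ω (L.restrictScalars ℚ)), fun σ => ?_⟩
    constructor
    · intro h
      exact e.permCongrHom.injective (h.trans (map_one _).symm)
    · intro h
      show e.permCongrHom (act ℚ Ω (L.restrictScalars ℚ) σ) = 1
      rw [h, map_one]

/-- Composita over the rational numbers. -/
theorem choose_le {n k : ℕ} {G : Subgroup (Equiv.Perm (Fin n))} (hn : 0 < n) {X : ℝ} (hX : 1 ≤ X) :
    (FldsIn K Ω n G X).ncard.choose k ≤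
      2 ^ (2 ^ ((finrank ℚ K * n) ^ k * (finrank ℚ K * n) ^ k)) *
      ∑ m ∈ range ((finrank ℚ K * n) ^ k + 1),
      ∑ G' ∈ (univ : Finset (Subgroup (Equiv.Perm (Fin m)))).filter
        (Good (finrank ℚ K * n) k (minInd G) m (Equiv.Perm (Fin (finrank ℚ K * n)))),
        (FldsIn ℚ Ω m G' ((X * ((|discr K| : ℤ) : ℝ) ^ n) ^
          (((k * m : ℕ) : ℝ) / ((finrank ℚ K * n : ℕ) : ℝ)))).ncard := by
  have hfin : (FldsIn K Ω n G X).Finite :=
    (fin_rat (k := K) (Ω := Ω) (X * ((|discr K| : ℤ) : ℝ) ^ n)).subset fun L hL => hL.2.2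
  have hK : 0 < finrank ℚ K := finrank_pos
  have hB : 1 ≤ X * ((|discr K| : ℤ) : ℝ) ^ n :=
    one_le_mul_of_one_le_of_one_le hX (one_le_discr n)
  have h1 := count (k₀ := ℚ) (Ω := Ω) (n := finrank ℚ K * n) (k := k) (μ := minInd G)
    (H := Equiv.Perm (Fin (finrank ℚ K * n))) (Nat.mul_pos hK hn) hB
    (hfin.toFinset.image fun L => L.restrictScalars ℚ) (by
      intro F hF
      obtain ⟨L, hL, rfl⟩ := mem_image.1 hF
      exact ind_res hn (hfin.mem_toFinset.1 hL))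
  rw [card_image_of_injective _ (IntermediateField.restrictScalars_injective ℚ),
    ← Set.ncard_eq_toFinset_card _ hfin] at h1
  exact h1

end

/-- The number of fields does not depend on the algebraic closure. -/
theorem ncard_transfer {k Ω₁ Ω₂ : Type*} [Field k] [NumberField k] [Field Ω₁] [Field Ω₂]
    [Algebra k Ω₁] [Algebra k Ω₂] (ψ : Ω₁ ≃ₐ[k] Ω₂) {m : ℕ} {G : Subgroup (Equiv.Perm (Fin m))}
    {Z : ℝ} : (FldsIn k Ω₁ m G Z).ncard = (FldsIn k Ω₂ m G Z).ncard := by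
  have h1 : (fun M : IntermediateField k Ω₁ => M.map (ψ : Ω₁ →ₐ[k] Ω₂)) '' (FldsIn k Ω₁ m G Z) =
      FldsIn k Ω₂ m G Z := by
    ext M
    constructor
    · rintro ⟨M', hM', rfl⟩
      exact map_mem ψ hM'
    · intro hM
      refine ⟨M.map (ψ.symm : Ω₂ →ₐ[k] Ω₁), map_mem ψ.symm hM, ?_⟩
      ext x
      simp only [IntermediateField.mem_map]
      constructor
      · rintro ⟨y, ⟨z, hz, rfl⟩, rfl⟩
        simpa using hz
      · intro hx
        exact ⟨ψ.symm x, ⟨x, hx, rfl⟩, by simp⟩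
  rw [← h1, Set.ncard_image_of_injective]
  intro M M' h
  ext x
  have h2 : ψ x ∈ M.map (ψ : Ω₁ →ₐ[k] Ω₂) ↔ ψ x ∈ M'.map (ψ : Ω₁ →ₐ[k] Ω₂) := by
    have h3 : M.map (ψ : Ω₁ →ₐ[k] Ω₂) = M'.map (ψ : Ω₁ →ₐ[k] Ω₂) := h
    rw [h3]
  simp only [IntermediateField.mem_map] at h2
  constructor
  · intro hx
    obtain ⟨y, hy, hyx⟩ := h2.1 ⟨x, hx, rfl⟩
    rwa [← ψ.injective hyx]
  · intro hx
    obtain ⟨y, hy, hyx⟩ := h2.2 ⟨x, hx, rfl⟩
    rwa [← ψ.injective hyx]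

/-- The number of fields. -/
noncomputable def NF (K : Type) [Field K] [NumberField K] (n : ℕ)
    (G : Subgroup (Equiv.Perm (Fin n))) (X : ℝ) : ℕ := (FldsIn K (AlgebraicClosure K) n G X).ncard

theorem ncard_eq_NF {k : Type} {Ω : Type*} [Field k] [NumberField k] [Field Ω] [Algebra k Ω]
    [IsAlgClosed Ω] [Algebra.IsAlgebraic k Ω] {m : ℕ} {G : Subgroup (Equiv.Perm (Fin m))} {Z : ℝ} :
    (FldsIn k Ω m G Z).ncard = NF k m G Z := by
  haveI : IsAlgClosure k Ω := ⟨inferInstance, inferInstance⟩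
  exact ncard_transfer (IsAlgClosure.equiv k Ω (AlgebraicClosure k))

/-- The exponent of a compositum. -/
theorem good_exp {n k μ m : ℕ} {H : Type} [Group H] (hn : 0 < n) (hμ : 0 < μ)
    {G : Subgroup (Equiv.Perm (Fin m))}
    (hG : Good n k μ m H G) : (m : ℝ) / n * aG G ≤ 1 / μ := by
  unfold aG
  rcases Nat.eq_zero_or_pos (minInd G) with h0 | h0
  · rw [h0]
    simp
  · have h1 : {j : ℕ | ∃ g ∈ G, g ≠ 1 ∧ j = m - cyc g}.Nonempty := by
      by_contra hcon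
      rw [Set.not_nonempty_iff_eq_empty] at hcon
      unfold minInd at h0
      rw [hcon] at h0
      simp at h0
    obtain ⟨g, hg, hg1, hg2⟩ := Nat.sInf_mem h1
    have h2 : minInd G = m - cyc g := hg2
    have h3 := hG.2.2.2 g hg hg1
    have h4 : m * μ ≤ n * minInd G := by
      have h5 := cyc_le_card g
      rw [Nat.card_fin] at h5
      have h6 : m = minInd G + cyc g := by omega
      have h7 : n * m = n * minInd G + n * cyc g := by
        rw [← Nat.mul_add, ← h6]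
      omega
    have h8 : (m : ℝ) * μ ≤ n * minInd G := by exact_mod_cast h4
    have h9 : (0 : ℝ) < n := by exact_mod_cast hn
    have h10 : (0 : ℝ) < μ := by exact_mod_cast hμ
    have h11 : (0 : ℝ) < minInd G := by exact_mod_cast h0
    rw [div_mul_div_comm, mul_one, div_le_div_iff₀ (by positivity) h10]
    linarith

/-- The analytic part. `N X` is the number of fields, `n'` the degree, `dK` a constant. -/
theorem analytic {β : ℝ} (hβ : 0 < β) {μ n' k : ℕ} (hn' : 0 < n')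
    (hk : 1 ≤ k) {H : Type} [Group H] {N : ℝ → ℕ}
    {f : (m : ℕ) → Subgroup (Equiv.Perm (Fin m)) → ℝ → ℕ} {dK : ℝ} (hd1 : 1 ≤ dK)
    (hN : ∀ X : ℝ, 1 ≤ X → (N X).choose k ≤ 2 ^ (2 ^ (n' ^ k * n' ^ k)) *
      ∑ m ∈ range (n' ^ k + 1),
      ∑ G' ∈ (univ : Finset (Subgroup (Equiv.Perm (Fin m)))).filter (Good n' k μ m H),
        f m G' ((X * dK) ^ (((k * m : ℕ) : ℝ) / n')))
    (hf : ∀ m (G' : Subgroup (Equiv.Perm (Fin m))), Good n' k μ m H G' → ∃ C : ℝ, ∀ X : ℝ, 1 ≤ X →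
      (f m G' X : ℝ) ≤ C * X ^ (β * n' / m)) :
    ∃ C : ℝ, ∀ X : ℝ, 1 ≤ X → (N X : ℝ) ≤ C * X ^ β := by
  -- the constants
  have hC : ∀ (m : ℕ) (G' : Subgroup (Equiv.Perm (Fin m))), ∃ C : ℝ, 0 ≤ C ∧
      (Good n' k μ m H G' → ∀ X : ℝ, 1 ≤ X → (f m G' X : ℝ) ≤ C * X ^ (β * n' / m)) := by
    intro m G'
    by_cases hg : Good n' k μ m H G'
    · obtain ⟨C, hC⟩ := hf m G' hg
      refine ⟨max C 0, le_max_right _ _, fun _ X hX => (hC X hX).trans ?_⟩
      exact mul_le_mul_of_nonneg_right (le_max_left _ _) (Real.rpow_nonneg (by linarith) _)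
    · exact ⟨0, le_rfl, fun h => absurd h hg⟩
  choose Cf hCf0 hCf using hC
  obtain ⟨γ, hγ⟩ : ∃ γ : ℝ, γ = ((2 ^ (2 ^ (n' ^ k * n' ^ k)) : ℕ) : ℝ) := ⟨_, rfl⟩
  have hγ0 : 0 ≤ γ := by rw [hγ]; positivity
  obtain ⟨S, hS⟩ : ∃ S : ℝ, S = ∑ m ∈ range (n' ^ k + 1),
      ∑ G' ∈ (univ : Finset (Subgroup (Equiv.Perm (Fin m)))).filter (Good n' k μ m H),
        Cf m G' := ⟨_, rfl⟩
  have hS0 : 0 ≤ S := by
    rw [hS]
    exact sum_nonneg fun m _ => sum_nonneg fun G' _ => hCf0 m G'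
  obtain ⟨C₀, hC₀⟩ : ∃ C₀ : ℝ, C₀ = max 1 ((k.factorial : ℝ) * γ * S) := ⟨_, rfl⟩
  have hC₀1 : 1 ≤ C₀ := by rw [hC₀]; exact le_max_left _ _
  have hC₀2 : (k.factorial : ℝ) * γ * S ≤ C₀ ^ k := by
    refine le_trans ?_ (le_self_pow₀ hC₀1 (by omega : k ≠ 0))
    rw [hC₀]
    exact le_max_right _ _
  refine ⟨2 * k + 2 * C₀ * dK ^ β, fun X hX => ?_⟩
  have hX0 : 0 < X := by linarith
  have hXp : 1 ≤ X ^ β := Real.one_le_rpow hX hβ.le
  have hdKp : 0 ≤ dK ^ β := Real.rpow_nonneg (by linarith) _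
  by_cases hN2 : N X < 2 * k
  · have h1 : (N X : ℝ) ≤ 2 * k := by exact_mod_cast hN2.le
    have h2 : (2 * k : ℝ) * 1 ≤ (2 * k) * X ^ β :=
      mul_le_mul_of_nonneg_left hXp (by positivity)
    have h3 : 0 ≤ 2 * C₀ * dK ^ β * X ^ β := by positivity
    linarith
  · rw [not_lt] at hN2
    have h1 := hN X hX
    obtain ⟨B, hB⟩ : ∃ B, B = X * dK := ⟨_, rfl⟩
    rw [← hB] at h1
    have hB1 : 1 ≤ B := by
      rw [hB]
      exact one_le_mul_of_one_le_of_one_le hX hd1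
    have hB0 : 0 < B := by linarith
    have hn'0 : (0 : ℝ) < n' := by exact_mod_cast hn'
    have h2 : ∀ m, ∀ G' ∈ (univ : Finset (Subgroup (Equiv.Perm (Fin m)))).filter
        (Good n' k μ m H),
        (f m G' (B ^ (((k * m : ℕ) : ℝ) / (n' : ℝ))) : ℝ) ≤ Cf m G' * (B ^ β) ^ k := by
      intro m G' hG'
      have hgood := (mem_filter.1 hG').2
      have hZ : 1 ≤ B ^ (((k * m : ℕ) : ℝ) / (n' : ℝ)) := Real.one_le_rpow hB1 (by positivity)
      refine (hCf m G' hgood _ hZ).trans (mul_le_mul_of_nonneg_left ?_ (hCf0 m G'))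
      rw [← Real.rpow_mul hB0.le, ← Real.rpow_natCast, ← Real.rpow_mul hB0.le]
      refine Real.rpow_le_rpow_of_exponent_le hB1 ?_
      rcases Nat.eq_zero_or_pos m with h0 | h0
      · subst h0
        simp only [mul_zero, Nat.cast_zero, zero_div, zero_mul]
        positivity
      · have hm0 : (0 : ℝ) < m := by exact_mod_cast h0
        refine le_of_eq ?_
        push_cast
        field_simp
    have h3 : (((N X).choose k : ℕ) : ℝ) ≤ γ * (S * (B ^ β) ^ k) := by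
      have h4 : (((N X).choose k : ℕ) : ℝ) ≤ γ * ∑ m ∈ range (n' ^ k + 1),
          ∑ G' ∈ (univ : Finset (Subgroup (Equiv.Perm (Fin m)))).filter (Good n' k μ m H),
            (f m G' (B ^ (((k * m : ℕ) : ℝ) / (n' : ℝ))) : ℝ) := by
        rw [hγ]
        exact_mod_cast h1
      refine h4.trans (mul_le_mul_of_nonneg_left ?_ hγ0)
      rw [hS, sum_mul]
      refine sum_le_sum fun m _ => ?_
      rw [sum_mul]
      exact sum_le_sum fun G' hG' => h2 m G' hG'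
    have h4 : ((N X : ℝ) / 2) ^ k ≤ (C₀ * B ^ β) ^ k := by
      have h5 := Nat.pow_le_choose (α := ℝ) k (N X)
      have h6 : (N X : ℝ) / 2 ≤ ((N X + 1 - k : ℕ) : ℝ) := by
        rw [Nat.cast_sub (by omega)]
        push_cast
        have : (2 * k : ℝ) ≤ N X := by exact_mod_cast hN2
        linarith
      have h7 : ((N X : ℝ) / 2) ^ k ≤ ((N X + 1 - k : ℕ) : ℝ) ^ k :=
        pow_le_pow_left₀ (by positivity) h6 k
      have hf : (0 : ℝ) < k.factorial := by exact_mod_cast k.factorial_pos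
      rw [div_le_iff₀ hf] at h5
      push_cast at h5 h7
      calc ((N X : ℝ) / 2) ^ k ≤ _ := h7
        _ ≤ ((N X).choose k : ℝ) * k.factorial := h5
        _ ≤ γ * (S * (B ^ β) ^ k) * k.factorial :=
            mul_le_mul_of_nonneg_right h3 hf.le
        _ = (k.factorial : ℝ) * γ * S * (B ^ β) ^ k := by ring
        _ ≤ C₀ ^ k * (B ^ β) ^ k :=
            mul_le_mul_of_nonneg_right hC₀2 (by positivity)
        _ = (C₀ * B ^ β) ^ k := (mul_pow _ _ _).symm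
    have h5 : (N X : ℝ) / 2 ≤ C₀ * B ^ β :=
      le_of_pow_le_pow_left₀ (by omega) (by positivity) h4
    rw [hB, Real.mul_rpow hX0.le (by linarith)] at h5
    have h6 : 0 ≤ (2 * k : ℝ) * X ^ β := by positivity
    calc (N X : ℝ) ≤ 2 * (C₀ * (X ^ β * dK ^ β)) := by linarith
      _ ≤ (2 * k + 2 * C₀ * dK ^ β) * X ^ β := by linarith

theorem large_deg {D k : ℕ} (hk : k = 2 ^ (D * D) + 1) {m : ℕ} (hm : k ≤ 2 ^ (m * m)) :
    D ≤ m := by
  by_contra hlt
  have h1 : m * m ≤ D * D := Nat.mul_le_mul (by omega) (by omega)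
  have h2 : 2 ^ (m * m) ≤ 2 ^ (D * D) := Nat.pow_le_pow_right (by norm_num) h1
  exact absurd (hm.trans h2) (by rw [hk]; exact Nat.not_succ_le_self _)

theorem le_ind_of_good {n k μ m : ℕ} {H : Type} [Group H] {G : Subgroup (Equiv.Perm (Fin m))}
    (hG : Good n k μ m H G) {g : Equiv.Perm (Fin m)} (hg : g ∈ G) (h1 : g ≠ 1) :
    m * μ ≤ n * (m - cyc g) := by
  have h3 := hG.2.2.2 g hg h1
  have h5 := cyc_le_card g
  rw [Nat.card_fin] at h5
  rw [Nat.mul_sub]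
  omega

/-- **Amplification, over the rational numbers.** -/
theorem bound_rat_gen {β : ℝ} (hβ : 0 < β) (K : Type) [Field K] [NumberField K] {n : ℕ}
    (hn : 0 < n) {G : Subgroup (Equiv.Perm (Fin n))} (D : ℕ)
    (hD : ∀ m ≥ D, ∀ G' : Subgroup (Equiv.Perm (Fin m)), Trans G' →
      (∃ (k : ℕ) (f : G' →* (Fin k → Equiv.Perm (Fin (finrank ℚ K * n)))), Function.Injective f) →
      (∀ g ∈ G', g ≠ 1 → m * minInd G ≤ finrank ℚ K * n * (m - cyc g)) →
      ∃ C : ℝ, ∀ X : ℝ, 1 ≤ X →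
        (NF ℚ m G' X : ℝ) ≤ C * X ^ (β * ((finrank ℚ K * n : ℕ) : ℝ) / m)) :
    ∃ C : ℝ, ∀ X : ℝ, 1 ≤ X → (NF K n G X : ℝ) ≤ C * X ^ β := by
  obtain ⟨k, hk⟩ : ∃ k, k = 2 ^ (D * D) + 1 := ⟨_, rfl⟩
  haveI : Algebra.IsAlgebraic ℚ (AlgebraicClosure K) :=
    Algebra.IsAlgebraic.trans ℚ K (AlgebraicClosure K)
  refine analytic hβ (k := k) (n' := finrank ℚ K * n) (μ := minInd G)
    (H := Equiv.Perm (Fin (finrank ℚ K * n))) (N := NF K n G) (f := NF ℚ)
    (Nat.mul_pos finrank_pos hn)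
    (by rw [hk]; exact Nat.le_add_left _ _) (one_le_discr (K := K) n) ?_ ?_
  · intro X hX
    have h1 := choose_le (K := K) (Ω := AlgebraicClosure K) (k := k) (G := G) hn hX
    simp only [ncard_eq_NF] at h1
    exact h1
  · intro m G' hG'
    exact hD m (large_deg hk hG'.2.1) G' hG'.1 ⟨k, hG'.2.2.1⟩ fun g hg h1 =>
      le_ind_of_good hG' hg h1

/-- **Amplification, over the same field, inside the powers of the group.** -/
theorem bound_pow_gen {β : ℝ} (hβ : 0 < β) (K : Type) [Field K] [NumberField K] {n : ℕ}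
    (hn : 0 < n) {G : Subgroup (Equiv.Perm (Fin n))} (D : ℕ)
    (hD : ∀ m ≥ D, ∀ G' : Subgroup (Equiv.Perm (Fin m)), Trans G' →
      (∃ (k : ℕ) (f : G' →* (Fin k → G)), Function.Injective f) →
      (∀ g ∈ G', g ≠ 1 → m * minInd G ≤ n * (m - cyc g)) → ∃ C : ℝ, ∀ X : ℝ, 1 ≤ X →
      (NF K m G' X : ℝ) ≤ C * X ^ (β * n / m)) :
    ∃ C : ℝ, ∀ X : ℝ, 1 ≤ X → (NF K n G X : ℝ) ≤ C * X ^ β := by
  obtain ⟨k, hk⟩ : ∃ k, k = 2 ^ (D * D) + 1 := ⟨_, rfl⟩
  refine analytic hβ (k := k) (n' := n) (μ := minInd G)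
    (H := G) (N := NF K n G) (f := NF K) hn
    (by rw [hk]; exact Nat.le_add_left _ _) (one_le_discr (K := K) n) ?_ ?_
  · intro X hX
    exact choose_le_self (K := K) (Ω := AlgebraicClosure K) (k := k) (G := G) hn hX
  · intro m G' hG'
    exact hD m (large_deg hk hG'.2.1) G' hG'.1 ⟨k, hG'.2.2.1⟩ fun g hg h1 =>
      le_ind_of_good hG' hg h1

/-- The exponents. -/
theorem exp_le {c : ℝ} (hc : 0 < c) {n m μ : ℕ} (hμ : 0 < μ) {G : Subgroup (Equiv.Perm (Fin m))}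
    (hm : 0 < m) (h : ∀ g ∈ G, g ≠ 1 → m * μ ≤ n * (m - cyc g)) :
    c * aG G ≤ c * (1 / (μ : ℝ)) * n / m := by
  have hm0 : (0 : ℝ) < m := by exact_mod_cast hm
  have hμ0 : (0 : ℝ) < μ := by exact_mod_cast hμ
  unfold aG
  rcases Nat.eq_zero_or_pos (minInd G) with h0 | h0
  · rw [h0]
    simp only [Nat.cast_zero, div_zero, mul_zero]
    positivity
  · have h1 : {j : ℕ | ∃ g ∈ G, g ≠ 1 ∧ j = m - cyc g}.Nonempty := by
      by_contra hcon
      rw [Set.not_nonempty_iff_eq_empty] at hcon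
      unfold minInd at h0
      rw [hcon] at h0
      simp at h0
    obtain ⟨g, hg, hg1, hg2⟩ := Nat.sInf_mem h1
    have h2 : minInd G = m - cyc g := hg2
    have h4 : m * μ ≤ n * minInd G := by
      rw [h2]
      exact h g hg hg1
    have h8 : (m : ℝ) * μ ≤ n * minInd G := by exact_mod_cast h4
    have h11 : (0 : ℝ) < minInd G := by exact_mod_cast h0
    rw [mul_assoc, mul_div_assoc]
    refine mul_le_mul_of_nonneg_left ?_ hc.le
    rw [div_mul_eq_mul_div, one_mul, div_div, div_le_div_iff₀ h11 (by positivity)]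
    linarith

/-- **Amplification, over the rational numbers.** -/
theorem bound_of_rat {c : ℝ} (hc : 0 < c) (K : Type) [Field K] [NumberField K] {n : ℕ} (hn : 2 ≤ n)
    {G : Subgroup (Equiv.Perm (Fin n))} (hG : Trans G) (D : ℕ)
    (hD : ∀ m ≥ D, ∀ G' : Subgroup (Equiv.Perm (Fin m)), Trans G' → ∃ C : ℝ, ∀ X : ℝ, 1 ≤ X →
      (NF ℚ m G' X : ℝ) ≤ C * X ^ (c * aG G')) :
    ∃ C : ℝ, ∀ X : ℝ, 1 ≤ X → (NF K n G X : ℝ) ≤ C * X ^ (c * aG G) := by
  have hμ := minInd_pos (exists_ne hn hG)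
  refine bound_rat_gen (mul_pos hc (aG_pos hn hG)) K (by omega) (max D 1) ?_
  intro m hm G' hG' _ h
  obtain ⟨C, hC⟩ := hD m ((le_max_left _ _).trans hm) G' hG'
  refine ⟨max C 0, fun X hX => (hC X hX).trans ?_⟩
  refine mul_le_mul (le_max_left _ _) (Real.rpow_le_rpow_of_exponent_le hX ?_)
    (Real.rpow_nonneg (by linarith) _) (le_max_right _ _)
  exact exp_le hc hμ (lt_of_lt_of_le one_pos ((le_max_right _ _).trans hm)) h

end Pool.Agent.H24ML
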